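import Pool.Agent.Q234.BF.Layer

/-! # The whole butterfly -/

set_option autoImplicit false

open MeasureTheory Real ProbabilityTheory

namespace Pool.Agent.Q234.BF

variable {K : ℕ} {M : Type} [Fintype M] [DecidableEq M] (e : M ≃ (Fin K → Fin 2))

omit [Fintype M] in
lemma lay_cont (l : Fin K) : Continuous (fun ω : M → ℝ × ℝ => lay e l ω) := by
  refine continuous_matrix fun i j => ?_
  unfold lay
  split_ifs
  · unfold al
    split_ifs <;> fun_prop
  · unfold be
    split_ifs <;> fun_prop
  · exact continuous_const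

/-- A circuit of `L` layers with digit `ls t` at time `t`. -/
noncomputable def Wc {L : ℕ} (ls : Fin L → Fin K) (ω : Fin L → M → ℝ × ℝ) : Matrix M M ℂ :=
  ((List.finRange L).reverse.map (fun t => lay e (ls t) (ω t))).prod

lemma Wc_cont {L : ℕ} (ls : Fin L → Fin K) :
    Continuous (fun ω : Fin L → M → ℝ × ℝ => Wc e ls ω) := by
  unfold Wc
  exact continuous_list_prod _ (fun i _ => (lay_cont e (ls i)).comp (continuous_apply i))

lemma Wc_unitary {L : ℕ} (ls : Fin L → Fin K) (ω : Fin L → M → ℝ × ℝ) :
    Wc e ls ω ∈ Matrix.unitaryGroup M ℂ := by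
  unfold Wc
  apply list_prod_mem
  intro x hx
  obtain ⟨t, -, rfl⟩ := List.mem_map.1 hx
  exact lay_unitary e _ _

lemma Wc_succ {L : ℕ} (ls : Fin (L + 1) → Fin K) (ω : Fin (L + 1) → M → ℝ × ℝ) :
    Wc e ls ω = Wc e (fun t => ls t.succ) (fun t => ω t.succ) * lay e (ls 0) (ω 0) := by
  unfold Wc
  rw [List.finRange_succ, List.reverse_cons, List.map_append, List.prod_append, ← List.map_reverse,
    List.map_map]
  simp [Function.comp_def]

lemma mulVec_bound {W : Matrix M M ℂ} (hW : W ∈ Matrix.unitaryGroup M ℂ) (v : M → ℂ) (i : M) :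
    ‖W.mulVec v i‖ ≤ ∑ j, ‖v j‖ := by
  unfold Matrix.mulVec dotProduct
  refine (norm_sum_le _ _).trans (Finset.sum_le_sum fun j _ => ?_)
  rw [norm_mul]
  exact mul_le_of_le_one_left (norm_nonneg _) (entry_norm_bound_of_unitary hW i j)

lemma qf_bound {W : Matrix M M ℂ} (hW : W ∈ Matrix.unitaryGroup M ℂ) (f : (Fin K → Fin 2) → ℂ)
    (v : M → ℂ) : ‖qf e f (fun i => Complex.normSq (W.mulVec v i))‖ ≤
      ∑ a : M, ∑ b : M, ‖f (e a + e b)‖ * ((∑ j, ‖v j‖) ^ 2 * (∑ j, ‖v j‖) ^ 2) := by
  unfold qf
  refine (norm_sum_le _ _).trans (Finset.sum_le_sum fun a _ => ?_)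
  refine (norm_sum_le _ _).trans (Finset.sum_le_sum fun b _ => ?_)
  rw [norm_mul, Complex.norm_real, Real.norm_eq_abs, abs_of_nonneg
    (mul_nonneg (Complex.normSq_nonneg _) (Complex.normSq_nonneg _)), Complex.normSq_eq_norm_sq,
    Complex.normSq_eq_norm_sq]
  gcongr
  · exact mulVec_bound hW v a
  · exact mulVec_bound hW v b

omit [DecidableEq M] in
lemma qf_cont {X : Type} [TopologicalSpace X] {g : X → M → ℂ} (hg : Continuous g)
    (f : (Fin K → Fin 2) → ℂ) :
    Continuous (fun x => qf e f (fun i => Complex.normSq (g x i))) := by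
  unfold qf
  refine continuous_finsetSum _ fun a _ => continuous_finsetSum _ fun b _ => ?_
  refine continuous_const.mul (Complex.continuous_ofReal.comp ?_)
  exact (Complex.continuous_normSq.comp ((continuous_apply a).comp hg)).mul
    (Complex.continuous_normSq.comp ((continuous_apply b).comp hg))

/-- The law of the angles of a circuit of `L` layers. -/
noncomputable abbrev circ (L : ℕ) (M : Type) [Fintype M] : Measure (Fin L → M → ℝ × ℝ) :=
  Measure.pi (fun _ : Fin L => angs M)

lemma circuit_mean : ∀ (L : ℕ) (ls : Fin L → Fin K) (f : (Fin K → Fin 2) → ℂ) (v : M → ℂ),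
    ∫ ω, qf e f (fun i => Complex.normSq ((Wc e ls ω).mulVec v i)) ∂(circ L M) =
      qf e ((List.finRange L).foldr (fun t g => Qf (ls t) g) f) (fun i => Complex.normSq (v i)) := by
  intro L
  induction L with
  | zero =>
    intro ls f v
    simp [Wc]
  | succ L ih =>
    intro ls f v
    have hmp := (measurePreserving_piFinSuccAbove (fun _ : Fin (L+1) => angs M) 0).symm
    rw [← hmp.integral_comp']
    simp_rw [MeasurableEquiv.piFinSuccAbove_symm_apply, Fin.insertNthEquiv, Equiv.coe_fn_mk,
      Fin.insertNth_zero, Wc_succ, Fin.cons_succ, Fin.cons_zero]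
    simp only [cast_eq]
    rw [integral_prod]
    · rw [List.finRange_succ, List.foldr_cons, List.foldr_map, ← layer_mean]
      refine integral_congr_ae (Filter.Eventually.of_forall fun a => ?_)
      simp only
      rw [← ih (fun t => ls t.succ)]
      simp only [Matrix.mulVec_mulVec]
    · refine Integrable.of_bound ?_ _ (Filter.Eventually.of_forall fun x =>
        qf_bound e (mul_mem (Wc_unitary e _ _) (lay_unitary e _ _)) f v)
      apply Continuous.aestronglyMeasurable
      apply qf_cont e (g := fun x : (M → ℝ × ℝ) × (Fin L → M → ℝ × ℝ) =>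
        (Wc e (fun t => ls t.succ) x.2 * lay e (ls 0) x.1).mulVec v)
      exact ((((Wc_cont e (fun t => ls t.succ)).comp continuous_snd).matrix_mul
        ((lay_cont e (ls 0)).comp continuous_fst)).matrix_mulVec continuous_const)

end Pool.Agent.Q234.BF
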