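import Mathlib

/-! # The second exterior power -/

set_option autoImplicit false

open Matrix

open scoped Kronecker

namespace Pool.Agent.Q234.BF

/-- Index set of the basis `e_a ∧ e_b`, `a < b`. -/
abbrev PP (M : Type) [LinearOrder M] : Type := {p : M × M // p.1 < p.2}

variable {M : Type} [Fintype M] [LinearOrder M]

/-- The matrix of `Λ²(W)`. -/
def Lam (W : Matrix M M ℂ) : Matrix (PP M) (PP M) ℂ :=
  fun p q => W p.1.1 q.1.1 * W p.1.2 q.1.2 - W p.1.1 q.1.2 * W p.1.2 q.1.1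

/-- The embedding of `Λ²` in the tensor square. -/
def JJ (M : Type) [Fintype M] [LinearOrder M] : Matrix (M × M) (PP M) ℂ :=
  fun ab p => (if ab = p.1 then 1 else 0) - (if ab = p.1.swap then 1 else 0)

lemma JJ_sum (g : M × M → ℂ) (p : PP M) :
    ∑ ab, g ab * JJ M ab p = g p.1 - g p.1.swap := by
  simp only [JJ, mul_sub, mul_ite, mul_one, mul_zero, Finset.sum_sub_distrib,
    Finset.sum_ite_eq', Finset.mem_univ, if_true]

lemma JJ_row (G : M → M → ℂ) (hG : ∀ a b, G a b = - G b a) (ab : M × M) :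
    ∑ p : PP M, JJ M ab p * G p.1.1 p.1.2 = G ab.1 ab.2 := by
  obtain ⟨a, b⟩ := ab
  rcases lt_trichotomy a b with h | h | h
  · rw [Finset.sum_eq_single (⟨(a, b), h⟩ : PP M)]
    · have : (a, b) ≠ (b, a) := by
        intro h'; rw [Prod.mk.injEq] at h'; exact h.ne h'.1
      simp [JJ, this]
    · rintro ⟨⟨c, d⟩, hcd⟩ - hne
      have h1 : ¬ ((a, b) = (c, d)) := by
        intro h'; apply hne; simp only [Subtype.mk.injEq]; exact h'.symm
      have h2 : ¬ ((a, b) = (d, c)) := by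
        intro h'; rw [Prod.mk.injEq] at h'
        simp only at hcd
        rw [h'.1, h'.2] at h
        exact lt_asymm h hcd
      simp [JJ, Prod.swap, h1, h2]
    · intro h'; exact absurd (Finset.mem_univ _) h'
  · subst h
    have h0 : G a a = 0 := by
      have := hG a a
      linear_combination (1/2) * this
    simp only
    rw [h0]
    refine Finset.sum_eq_zero fun p _ => ?_
    obtain ⟨⟨c, d⟩, hcd⟩ := p
    simp only at hcd
    have h1 : ¬ ((a, a) = (c, d)) := by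
      intro h'; rw [Prod.mk.injEq] at h'
      exact hcd.ne (h'.1.symm.trans h'.2)
    have h2 : ¬ ((a, a) = (d, c)) := by
      intro h'; rw [Prod.mk.injEq] at h'
      exact hcd.ne (h'.2.symm.trans h'.1)
    simp [JJ, Prod.swap, h1, h2]
  · rw [Finset.sum_eq_single (⟨(b, a), h⟩ : PP M)]
    · have : (a, b) ≠ (b, a) := by
        intro h'; rw [Prod.mk.injEq] at h'; exact h.ne' h'.1
      simp only [JJ, Prod.swap, if_neg this, if_true]
      rw [hG a b]
      ring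
    · rintro ⟨⟨c, d⟩, hcd⟩ - hne
      have h1 : ¬ ((a, b) = (c, d)) := by
        intro h'; rw [Prod.mk.injEq] at h'
        simp only at hcd
        rw [← h'.1, ← h'.2] at hcd
        exact lt_asymm h hcd
      have h2 : ¬ ((a, b) = (d, c)) := by
        intro h'; rw [Prod.mk.injEq] at h'
        apply hne; simp only [Subtype.mk.injEq, Prod.mk.injEq]
        exact ⟨h'.2.symm, h'.1.symm⟩
      simp [JJ, Prod.swap, h1, h2]
    · intro h'; exact absurd (Finset.mem_univ _) h'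

lemma JJ_Lam (W : Matrix M M ℂ) : JJ M * Lam W = (W ⊗ₖ W) * JJ M := by
  ext ab q
  rw [Matrix.mul_apply, Matrix.mul_apply, JJ_sum (fun cd => (W ⊗ₖ W) ab cd) q]
  have := JJ_row (fun a b => W a q.1.1 * W b q.1.2 - W a q.1.2 * W b q.1.1)
    (fun a b => by ring) ab
  simp only [Lam]
  rw [this]
  simp only [Matrix.kroneckerMap_apply, Prod.fst_swap, Prod.snd_swap]

lemma Lam_JJ (W : Matrix M M ℂ) : Lam W * (JJ M)ᴴ = (JJ M)ᴴ * (W ⊗ₖ W) := by
  have h := congrArg conjTranspose (JJ_Lam Wᴴ)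
  rw [conjTranspose_mul, conjTranspose_mul, conjTranspose_kronecker, conjTranspose_conjTranspose]
    at h
  rw [← h]
  congr 1
  ext p q
  simp only [Lam, conjTranspose_apply, star_sub, star_mul', star_star]
  ring

lemma JJ_Lam_star (W : Matrix M M ℂ) : JJ M * (Lam W)ᴴ = (W ⊗ₖ W)ᴴ * JJ M := by
  have h := congrArg conjTranspose (Lam_JJ W)
  rw [conjTranspose_mul, conjTranspose_mul, conjTranspose_conjTranspose] at h
  exact h

/-- The one-particle density operator `v v†`, second quantised on `Λ²`. -/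
noncomputable def Av (v : M → ℂ) : Matrix (PP M) (PP M) ℂ :=
  (JJ M)ᴴ * (vecMulVec v (star v) ⊗ₖ (1 : Matrix M M ℂ)) * JJ M

lemma Av_conj {W : Matrix M M ℂ} (hW : W ∈ Matrix.unitaryGroup M ℂ) (v : M → ℂ) :
    Lam W * Av v * (Lam W)ᴴ = Av (W.mulVec v) := by
  have h1 : W * Wᴴ = 1 := (Matrix.mem_unitaryGroup_iff).1 hW
  have h2 : vecMulVec (W.mulVec v) (star (W.mulVec v)) = W * vecMulVec v (star v) * Wᴴ := by
    rw [mul_vecMulVec, vecMulVec_mul, star_mulVec]
  unfold Av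
  calc Lam W * ((JJ M)ᴴ * (vecMulVec v (star v) ⊗ₖ (1 : Matrix M M ℂ)) * JJ M) * (Lam W)ᴴ
      = (Lam W * (JJ M)ᴴ) * (vecMulVec v (star v) ⊗ₖ (1 : Matrix M M ℂ)) * (JJ M * (Lam W)ᴴ) := by
        simp only [Matrix.mul_assoc]
    _ = (JJ M)ᴴ * ((W ⊗ₖ W) * (vecMulVec v (star v) ⊗ₖ (1 : Matrix M M ℂ)) * (W ⊗ₖ W)ᴴ) * JJ M := by
        rw [Lam_JJ, JJ_Lam_star]
        simp only [Matrix.mul_assoc]
    _ = _ := by
        rw [conjTranspose_kronecker, ← mul_kronecker_mul, ← mul_kronecker_mul, h2, Matrix.mul_one,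
          h1]

lemma sandwich (A : Matrix (M × M) (M × M) ℂ) (p : PP M) :
    ((JJ M)ᴴ * A * JJ M) p p = (A p.1 p.1 - A p.1.swap p.1) - (A p.1 p.1.swap -
      A p.1.swap p.1.swap) := by
  have h : ∀ cd : M × M, ((JJ M)ᴴ * A) p cd = A p.1 cd - A p.1.swap cd := by
    intro cd
    rw [Matrix.mul_apply, ← JJ_sum (fun ab => A ab cd) p]
    refine Finset.sum_congr rfl fun ab _ => ?_
    rw [conjTranspose_apply]
    have : star (JJ M ab p) = JJ M ab p := by
      unfold JJ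
      split_ifs <;> simp
    rw [this, mul_comm]
  rw [Matrix.mul_apply]
  simp only [h]
  exact JJ_sum (fun ab => A p.1 ab - A p.1.swap ab) p

lemma Av_diag (v : M → ℂ) (p : PP M) :
    Av v p p = ((Complex.normSq (v p.1.1) + Complex.normSq (v p.1.2) : ℝ) : ℂ) := by
  unfold Av
  rw [sandwich]
  obtain ⟨⟨a, b⟩, hab⟩ := p
  have hne : a ≠ b := hab.ne
  simp only [Prod.swap, Matrix.kroneckerMap_apply, vecMulVec_apply,
    Matrix.one_apply_eq, Matrix.one_apply_ne hne, Matrix.one_apply_ne hne.symm, Pi.star_apply,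
    Complex.star_def, Complex.mul_conj]
  push_cast; ring

omit [Fintype M] in
/-- The weight of one mode is read off from three pairs. -/
lemma exists_triple {a b c : M} (hab : a ≠ b) (hac : a ≠ c) (hbc : b ≠ c) :
    ∃ s1 s2 s3 : PP M, ∀ x : M → ℂ,
      (1/2) * ((x s1.1.1 + x s1.1.2) + (x s2.1.1 + x s2.1.2) - (x s3.1.1 + x s3.1.2)) = x a := by
  have key : ∀ a b : M, a ≠ b → ∃ s : PP M, ∀ x : M → ℂ, x s.1.1 + x s.1.2 = x a + x b := by
    intro a b h
    rcases lt_or_gt_of_ne h with h | h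
    · exact ⟨⟨(a, b), h⟩, fun x => rfl⟩
    · exact ⟨⟨(b, a), h⟩, fun x => add_comm _ _⟩
  obtain ⟨s1, h1⟩ := key a b hab
  obtain ⟨s2, h2⟩ := key a c hac
  obtain ⟨s3, h3⟩ := key b c hbc
  refine ⟨s1, s2, s3, fun x => ?_⟩
  rw [h1, h2, h3]; ring

/-- Conjugation by `Λ²(W)^{⊗2}`. -/
noncomputable def cj (W : Matrix M M ℂ) (Y : Matrix (PP M × PP M) (PP M × PP M) ℂ) :
    Matrix (PP M × PP M) (PP M × PP M) ℂ :=
  (Lam W ⊗ₖ Lam W) * Y * (Lam W ⊗ₖ Lam W)ᴴ

lemma cj_Av {W : Matrix M M ℂ} (hW : W ∈ Matrix.unitaryGroup M ℂ) (v : M → ℂ) :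
    cj W (Av v ⊗ₖ Av v) = Av (W.mulVec v) ⊗ₖ Av (W.mulVec v) := by
  unfold cj
  rw [conjTranspose_kronecker, ← mul_kronecker_mul, ← mul_kronecker_mul, Av_conj hW]

lemma cj_add (W : Matrix M M ℂ) (Y Z : Matrix (PP M × PP M) (PP M × PP M) ℂ) :
    cj W (Y + Z) = cj W Y + cj W Z := by
  unfold cj
  rw [Matrix.mul_add, Matrix.add_mul]

lemma cj_smul (W : Matrix M M ℂ) (c : ℂ) (Y : Matrix (PP M × PP M) (PP M × PP M) ℂ) :
    cj W (c • Y) = c • cj W Y := by
  unfold cj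
  rw [Matrix.mul_smul, Matrix.smul_mul]

lemma Lam_bound {W : Matrix M M ℂ} (hW : W ∈ Matrix.unitaryGroup M ℂ) (p q : PP M) :
    ‖Lam W p q‖ ≤ 2 := by
  unfold Lam
  have h := fun i j => entry_norm_bound_of_unitary hW i j
  calc ‖W p.1.1 q.1.1 * W p.1.2 q.1.2 - W p.1.1 q.1.2 * W p.1.2 q.1.1‖
      ≤ ‖W p.1.1 q.1.1 * W p.1.2 q.1.2‖ + ‖W p.1.1 q.1.2 * W p.1.2 q.1.1‖ := norm_sub_le _ _
    _ ≤ 1 + 1 := by
        rw [norm_mul, norm_mul]
        exact add_le_add (mul_le_one₀ (h _ _) (norm_nonneg _) (h _ _))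
          (mul_le_one₀ (h _ _) (norm_nonneg _) (h _ _))
    _ = 2 := by norm_num

lemma kr_bound {W : Matrix M M ℂ} (hW : W ∈ Matrix.unitaryGroup M ℂ) (p q : PP M × PP M) :
    ‖(Lam W ⊗ₖ Lam W) p q‖ ≤ 4 := by
  rw [Matrix.kroneckerMap_apply, norm_mul]
  calc ‖Lam W p.1 q.1‖ * ‖Lam W p.2 q.2‖ ≤ 2 * 2 := by
        gcongr
        · exact Lam_bound hW _ _
        · exact Lam_bound hW _ _
    _ = 4 := by norm_num

lemma cj_bound {W : Matrix M M ℂ} (hW : W ∈ Matrix.unitaryGroup M ℂ)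
    (Y : Matrix (PP M × PP M) (PP M × PP M) ℂ) (p q : PP M × PP M) :
    ‖cj W Y p q‖ ≤ ∑ l, (∑ k, 4 * ‖Y k l‖) * 4 := by
  unfold cj
  rw [Matrix.mul_apply]
  refine (norm_sum_le _ _).trans (Finset.sum_le_sum fun l _ => ?_)
  rw [norm_mul, conjTranspose_apply, norm_star]
  refine mul_le_mul ?_ (kr_bound hW _ _) (norm_nonneg _) (Finset.sum_nonneg fun k _ => by positivity)
  rw [Matrix.mul_apply]
  refine (norm_sum_le _ _).trans (Finset.sum_le_sum fun k _ => ?_)
  rw [norm_mul]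
  exact mul_le_mul_of_nonneg_right (kr_bound hW _ _) (norm_nonneg _)

lemma cj_cont {X : Type} [TopologicalSpace X] {W : X → Matrix M M ℂ} (hW : Continuous W)
    (Y : Matrix (PP M × PP M) (PP M × PP M) ℂ) : Continuous (fun x => cj (W x) Y) := by
  have h1 : Continuous (fun x => Lam (W x)) := by
    refine continuous_matrix fun p q => ?_
    unfold Lam
    exact ((hW.matrix_elem _ _).mul (hW.matrix_elem _ _)).sub
      ((hW.matrix_elem _ _).mul (hW.matrix_elem _ _))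
  have h2 : Continuous (fun x => (Lam (W x) ⊗ₖ Lam (W x))) := by
    refine continuous_matrix fun p q => ?_
    simp only [Matrix.kroneckerMap_apply]
    exact (h1.matrix_elem _ _).mul (h1.matrix_elem _ _)
  unfold cj
  exact (h2.matrix_mul continuous_const).matrix_mul h2.matrix_conjTranspose

end Pool.Agent.Q234.BF
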