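import Pool.Agent.Q234.BF.Gate
import Pool.Agent.Q234.BF.Wedge

/-! # The random unitary butterfly and the map `Φ_n` -/

set_option autoImplicit false

open MeasureTheory Real

open scoped Kronecker

namespace Pool.Agent.Q234.BF

/-- The lower mode of the pair containing mode `i` in the layer of stride `2 ^ l`: the mode `i`
itself if its binary digit in position `l` is `0`, and `i - 2 ^ l` otherwise. -/
def lower {K : ℕ} (l : Fin K) (i : Fin (2 ^ K)) : Fin (2 ^ K) :=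
  if (i : ℕ) / 2 ^ (l : ℕ) % 2 = 0 then i else ⟨(i : ℕ) - 2 ^ (l : ℕ), (Nat.sub_le _ _).trans_lt i.isLt⟩

/-- The layer of stride `2 ^ l`: the modes `i` (digit `l` equal to `0`) and `i + 2 ^ l` undergo
the gate `V(θ,φ) = !![cos θ, sin θ; -sin θ, cos θ] * diag (e^{iφ/2}, e^{-iφ/2})` with
`(θ, φ) = ω i`.  (The angles at the modes with digit `1` are not used.) -/
noncomputable def layer {K : ℕ} (l : Fin K) (ω : Fin (2 ^ K) → ℝ × ℝ) :
    Matrix (Fin (2 ^ K)) (Fin (2 ^ K)) ℂ := fun i j =>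
  if (i : ℕ) / 2 ^ (l : ℕ) % 2 = 0 then
    if j = i then (cos (ω (lower l i)).1 : ℂ) * Complex.exp (Complex.I * (ω (lower l i)).2 / 2)
    else if (j : ℕ) = i + 2 ^ (l : ℕ) then
      (sin (ω (lower l i)).1 : ℂ) * Complex.exp (-(Complex.I * (ω (lower l i)).2 / 2))
    else 0
  else
    if j = i then (cos (ω (lower l i)).1 : ℂ) * Complex.exp (-(Complex.I * (ω (lower l i)).2 / 2))
    else if (j : ℕ) + 2 ^ (l : ℕ) = i then
      -(sin (ω (lower l i)).1 : ℂ) * Complex.exp (Complex.I * (ω (lower l i)).2 / 2)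
    else 0

/-- The unitary butterfly `W_n = U_K ⋯ U_1`, as a function of the angles. -/
noncomputable def butterfly (K : ℕ) (ω : Fin K → Fin (2 ^ K) → ℝ × ℝ) :
    Matrix (Fin (2 ^ K)) (Fin (2 ^ K)) ℂ :=
  ((List.finRange K).reverse.map (fun l => layer l (ω l))).prod

/-- The law of the angles: independent, uniform on `[0, 2π)`. -/
noncomputable def law (K : ℕ) : Measure (Fin K → Fin (2 ^ K) → ℝ × ℝ) :=
  Measure.pi (fun _ => Measure.pi (fun _ => unif.prod unif))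

/-- `Φ_n[Y] = E[Λ²(W)^{⊗2} Y (Λ²(W)^{⊗2})†]`, entrywise. -/
noncomputable def Phi (K : ℕ)
    (Y : Matrix (PP (Fin (2 ^ K)) × PP (Fin (2 ^ K))) (PP (Fin (2 ^ K)) × PP (Fin (2 ^ K))) ℂ) :
    Matrix (PP (Fin (2 ^ K)) × PP (Fin (2 ^ K))) (PP (Fin (2 ^ K)) × PP (Fin (2 ^ K))) ℂ :=
  Matrix.of fun p q => ∫ ω, ((Lam (butterfly K ω) ⊗ₖ Lam (butterfly K ω)) * Y *
    (Lam (butterfly K ω) ⊗ₖ Lam (butterfly K ω)).conjTranspose) p q ∂(law K)

end Pool.Agent.Q234.BF
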