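import Mathlib

/-! # Moments of one random gate -/

set_option autoImplicit false

open MeasureTheory Real

namespace Pool.Agent.Q234.BF

/-- The uniform distribution on `[0, 2π)`. -/
noncomputable def unif : Measure ℝ :=
  (ENNReal.ofReal (2 * π))⁻¹ • volume.restrict (Set.Ico 0 (2 * π))

instance : IsProbabilityMeasure unif := by
  constructor
  unfold unif
  rw [Measure.smul_apply, Measure.restrict_apply MeasurableSet.univ, Set.univ_inter,
    Real.volume_Ico, sub_zero, smul_eq_mul]
  exact ENNReal.inv_mul_cancel (by simp [Real.pi_pos]) ENNReal.ofReal_ne_top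

lemma integral_unif (f : ℝ → ℝ) : ∫ x, f x ∂unif = (2 * π)⁻¹ * ∫ x in (0)..(2 * π), f x := by
  unfold unif
  rw [integral_smul_measure, ENNReal.toReal_inv, ENNReal.toReal_ofReal (by positivity),
    smul_eq_mul, intervalIntegral.integral_of_le (by positivity), integral_Ico_eq_integral_Ioc]

lemma unif_cos : ∫ x, cos x ∂unif = 0 := by
  rw [integral_unif, integral_cos]; simp

lemma unif_sin : ∫ x, sin x ∂unif = 0 := by
  rw [integral_unif, integral_sin]; simp

lemma unif_cos2 : ∫ x, cos (2 * x) ∂unif = 0 := by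
  rw [integral_unif, intervalIntegral.integral_comp_mul_left (fun x => cos x) two_ne_zero,
    integral_cos]
  have : sin (2 * (2 * π)) = 0 := by
    have := Real.sin_nat_mul_pi 4
    push_cast at this
    rw [← this]; congr 1; ring
  rw [this]; simp

lemma unif_sin2 : ∫ x, sin (2 * x) ∂unif = 0 := by
  rw [integral_unif, intervalIntegral.integral_comp_mul_left (fun x => sin x) two_ne_zero,
    integral_sin]
  have : cos (2 * (2 * π)) = 1 := by
    have := Real.cos_nat_mul_two_pi 2
    push_cast at this
    rw [← this]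
  rw [this]; simp

lemma unif_cos_sq : ∫ x, cos x ^ 2 ∂unif = 1 / 2 := by
  rw [integral_unif, integral_cos_sq]
  have := Real.pi_ne_zero
  simp
  field_simp

lemma unif_sin_sq : ∫ x, sin x ^ 2 ∂unif = 1 / 2 := by
  rw [integral_unif, integral_sin_sq]
  have := Real.pi_ne_zero
  simp
  field_simp

lemma cont_unif {f : ℝ → ℝ} (hf : Continuous f) {C : ℝ} (hC : ∀ x, ‖f x‖ ≤ C) :
    Integrable f unif :=
  Integrable.of_bound hf.aestronglyMeasurable C (Filter.Eventually.of_forall hC)

lemma unif_cos4 : ∫ x, cos (4 * x) ∂unif = 0 := by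
  rw [integral_unif, intervalIntegral.integral_comp_mul_left (fun x => cos x) four_ne_zero,
    integral_cos]
  have : sin (4 * (2 * π)) = 0 := by
    have := Real.sin_nat_mul_pi 8
    push_cast at this
    rw [← this]; congr 1; ring
  rw [this]; simp

lemma unif_sin4 : ∫ x, sin (4 * x) ∂unif = 0 := by
  rw [integral_unif, intervalIntegral.integral_comp_mul_left (fun x => sin x) four_ne_zero,
    integral_sin]
  have : cos (4 * (2 * π)) = 1 := by
    have := Real.cos_nat_mul_two_pi 4
    push_cast at this
    rw [← this]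
  rw [this]; simp

lemma unif_cos2_sq : ∫ x, cos (2 * x) ^ 2 ∂unif = 1 / 2 := by
  have : ∀ x, cos (2 * x) ^ 2 = 1 / 2 + 1 / 2 * cos (4 * x) := by
    intro x
    have := Real.cos_sq (2 * x)
    rw [this]; ring_nf
  simp only [this]
  rw [integral_add (integrable_const _) ((cont_unif (by fun_prop) (C := 1)
    (fun x => by simpa using Real.abs_cos_le_one _)).const_mul _), integral_const_mul, unif_cos4]
  simp

lemma unif_sin2_sq : ∫ x, sin (2 * x) ^ 2 ∂unif = 1 / 2 := by
  have : ∀ x, sin (2 * x) ^ 2 = 1 - cos (2 * x) ^ 2 := fun x => Real.sin_sq _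
  simp only [this]
  rw [integral_sub (integrable_const _) (cont_unif (by fun_prop) (C := 1)
    (fun x => by
      rw [Real.norm_eq_abs, abs_pow]
      exact pow_le_one₀ (abs_nonneg _) (Real.abs_cos_le_one _))), unif_cos2_sq]
  simp
  norm_num

lemma unif_sin2_cos2 : ∫ x, sin (2 * x) * cos (2 * x) ∂unif = 0 := by
  have : ∀ x, sin (2 * x) * cos (2 * x) = 1 / 2 * sin (4 * x) := by
    intro x
    have := Real.sin_two_mul (2 * x)
    rw [show 4 * x = 2 * (2 * x) by ring, this]; ring
  simp only [this]
  rw [integral_const_mul, unif_sin4, mul_zero]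

lemma unif_sin_cos : ∫ x, sin x * cos x ∂unif = 0 := by
  have : ∀ x, sin x * cos x = 1 / 2 * sin (2 * x) := by
    intro x
    rw [Real.sin_two_mul]; ring
  simp only [this]
  rw [integral_const_mul, unif_sin2, mul_zero]

end Pool.Agent.Q234.BF
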