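import Pool.Agent.Q234.BF.Spec

/-! # Lifting the eigenvector to a function of the digit difference -/

set_option autoImplicit false

namespace Pool.Agent.Q234.BF

variable {K : ℕ}

/-- The digit string with a single one. -/
def es (l : Fin K) : Fin K → Fin 2 := Pi.single l 1

lemma es_same (l : Fin K) : es l l = 1 := Pi.single_eq_same _ _

lemma es_ne {l i : Fin K} (h : i ≠ l) : es l i = 0 := Pi.single_eq_of_ne h _

lemma es_add (l : Fin K) : es l + es l = 0 := by
  funext i
  by_cases h : i = l
  · subst h; simp [es_same]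
  · simp [es_ne h]

lemma es_ne_zero (l : Fin K) : es l ≠ 0 := by
  intro h
  have := congrFun h l
  rw [es_same] at this
  have h2 : (1 : Fin 2) = 0 := this
  exact absurd h2 (by decide)

/-- One averaging step on functions of the digit difference. -/
noncomputable def Qf (l : Fin K) (f : (Fin K → Fin 2) → ℂ) (d : Fin K → Fin 2) : ℂ :=
  (1/2) * (f d + f (d + es l)) + (if d = 0 then (1/4) * (f 0 - f (es l)) else 0)

/-- The whole round. -/
noncomputable def Qtot (K : ℕ) (f : (Fin K → Fin 2) → ℂ) : (Fin K → Fin 2) → ℂ :=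
  (List.finRange K).foldr Qf f

/-- The lumped step. -/
noncomputable def Astep (l : Fin K) (y : ℂ × (Fin K → ℂ)) : ℂ × (Fin K → ℂ) :=
  (y.1 - (1/4) * y.2 l, Bfun l y.2)

/-- The ordering of the digits before step `m`. -/
def rk (m : ℕ) (i : Fin K) : ℕ := if (i : ℕ) < m then i + K else i

/-- `j` is the leading nonzero digit of `d`. -/
def Top (m : ℕ) (d : Fin K → Fin 2) (j : Fin K) : Prop :=
  d j ≠ 0 ∧ ∀ i, d i ≠ 0 → rk m i ≤ rk m j

/-- `f` is represented by `y`. -/
def Rep (m : ℕ) (f : (Fin K → Fin 2) → ℂ) (y : ℂ × (Fin K → ℂ)) : Prop :=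
  f 0 = y.1 ∧ ∀ d j, Top m d j → f d = y.1 - y.2 j

lemma rk_inj (m : ℕ) {i j : Fin K} (h : rk m i = rk m j) : i = j := by
  unfold rk at h
  apply Fin.ext
  have := i.isLt
  have := j.isLt
  split_ifs at h <;> omega

lemma top_unique {m : ℕ} {d : Fin K → Fin 2} {i j : Fin K} (hi : Top m d i) (hj : Top m d j) :
    i = j := rk_inj m (le_antisymm (hj.2 i hi.1) (hi.2 j hj.1))

lemma exists_top (m : ℕ) {d : Fin K → Fin 2} (hd : d ≠ 0) : ∃ j, Top m d j := by
  obtain ⟨i, hi⟩ := Function.ne_iff.1 hd
  obtain ⟨j, hj, hmax⟩ := (Finset.univ.filter (fun i => d i ≠ 0)).exists_max_image (rk m)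
    ⟨i, by simpa using hi⟩
  refine ⟨j, by simpa using hj, fun i hi => hmax i (by simpa using hi)⟩

lemma fin2_cases (a : Fin 2) : a = 0 ∨ a = 1 := by
  revert a; decide

lemma rep_step (l : Fin K) (f : (Fin K → Fin 2) → ℂ) (y : ℂ × (Fin K → ℂ))
    (h : Rep (l + 1) f y) : Rep l (Qf l f) (Astep l y) := by
  obtain ⟨t, x⟩ := y
  obtain ⟨h0, h1⟩ := h
  simp only at h0 h1
  have hl : (l : ℕ) < K := l.isLt
  -- if the digit `l` is set it leads
  have top1 : ∀ d : Fin K → Fin 2, d l ≠ 0 → Top (l + 1) d l := by
    intro d hd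
    refine ⟨hd, fun i _ => ?_⟩
    unfold rk
    have := i.isLt
    split_ifs <;> omega
  have hel : f (es l) = t - x l := h1 _ _ (top1 _ (by rw [es_same]; decide))
  refine ⟨?_, ?_⟩
  · simp only [Qf, Astep, zero_add, if_true]
    rw [hel, h0]; ring
  · intro d j hj
    by_cases hjl : j = l
    · subst hjl
      have hd : d = es j := by
        funext i
        by_cases hij : i = j
        · subst hij
          rw [es_same]
          rcases fin2_cases (d i) with h | h
          · exact absurd h hj.1
          · exact h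
        · rw [es_ne hij]
          by_contra hne
          have h2 := hj.2 i hne
          unfold rk at h2
          have h3 : (i : ℕ) ≠ (j : ℕ) := fun h => hij (Fin.ext h)
          have := i.isLt
          split_ifs at h2 <;> omega
      subst hd
      simp only [Qf, Astep, Bfun, if_true, if_neg (es_ne_zero j), es_add]
      rw [hel, h0]; ring
    · have hd0 : d ≠ 0 := by rintro rfl; exact hj.1 rfl
      have top2 : ∀ d' : Fin K → Fin 2, (∀ i, i ≠ l → d' i = d i) → d' l = 0 →
          Top (l + 1) d' j := by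
        intro d' hd' hd'l
        refine ⟨by rw [hd' j hjl]; exact hj.1, fun i hi => ?_⟩
        have hil : i ≠ l := by rintro rfl; exact hi hd'l
        have h2 := hj.2 i (by rw [← hd' i hil]; exact hi)
        have h3 : (i : ℕ) ≠ (l : ℕ) := fun h => hil (Fin.ext h)
        have h4 : (j : ℕ) ≠ (l : ℕ) := fun h => hjl (Fin.ext h)
        unfold rk at h2 ⊢
        have := i.isLt
        have := j.isLt
        split_ifs at h2 ⊢ <;> omega
      simp only [Qf, Astep, Bfun, if_neg hd0, if_neg hjl]
      rcases fin2_cases (d l) with h | h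
      · have e1 : f d = t - x j := h1 _ _ (top2 d (fun _ _ => rfl) h)
        have e2 : f (d + es l) = t - x l := h1 _ _ (top1 _ (by
          rw [Pi.add_apply, h, es_same]; decide))
        rw [e1, e2]; ring
      · have e1 : f d = t - x l := h1 _ _ (top1 _ (by rw [h]; decide))
        have e2 : f (d + es l) = t - x j := h1 _ _ (top2 _ (fun i hi => by
          rw [Pi.add_apply, es_ne hi, add_zero]) (by
          rw [Pi.add_apply, h, es_same]; decide))
        rw [e1, e2]; ring

open Classical in
lemma exists_f {μ : ℂ} {x : Fin K → ℂ} (hμ : μ ≠ 1) (hx : x ≠ 0) (hB : Btot K x = μ • x) :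
    ∃ f : (Fin K → Fin 2) → ℂ, f ≠ 0 ∧ Qtot K f = fun d => μ * f d := by
  -- the first coordinate
  set T : ℂ × (Fin K → ℂ) → ℂ × (Fin K → ℂ) := fun y => (List.finRange K).foldr Astep y with hT
  have s1 : ∀ t, (T (t, x)).2 = μ • x := by
    intro t
    rw [← hB, Btot_apply]
    exact fold_down K (fun _ (a : ℂ × (Fin K → ℂ)) b => a.2 = b) Astep Bfun
      (fun l a b h => by simp only [Astep, h]) (t, x) x rfl
  have s2 : ∀ t, (T (t, x)).1 = (T (0, x)).1 + t := by
    intro t
    exact (fold_down K (fun _ (a b : ℂ × (Fin K → ℂ)) => a.1 = b.1 + t ∧ a.2 = b.2) Astep Astep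
      (fun l a b h => by
        refine ⟨?_, ?_⟩
        · simp only [Astep, h.1, h.2]; ring
        · simp only [Astep, h.2]) (t, x) (0, x) ⟨by simp, rfl⟩).1
  set t : ℂ := -(T (0, x)).1 / (1 - μ) with ht
  have h1μ : (1 : ℂ) - μ ≠ 0 := sub_ne_zero.2 (Ne.symm hμ)
  have s3 : (T (t, x)).1 = μ * t := by
    rw [s2]
    have : t * (1 - μ) = -(T (0, x)).1 := by rw [ht]; field_simp
    linear_combination this
  let f : (Fin K → Fin 2) → ℂ := fun d => if h : d = 0 then t else t - x (exists_top K h).choose
  have hrep : Rep K f (t, x) := by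
    refine ⟨by simp [f], fun d j hj => ?_⟩
    have hd : d ≠ 0 := by rintro rfl; exact hj.1 rfl
    simp only [f, dif_neg hd]
    rw [top_unique (exists_top K hd).choose_spec hj]
  have hfin := fold_down K (fun m f y => Rep m f y) Qf Astep rep_step f (t, x) hrep
  have hfin' : Rep 0 (Qtot K f) (T (t, x)) := hfin
  refine ⟨f, ?_, ?_⟩
  · intro hf
    apply hx
    have h0 : t = 0 := by have := hrep.1; rw [hf] at this; exact this.symm
    funext j
    have := hrep.2 (es j) j ⟨by rw [es_same]; decide, fun i hi => by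
      have : i = j := by
        by_contra h
        exact hi (es_ne h)
      rw [this]⟩
    rw [hf, h0] at this
    simpa using this.symm
  · funext d
    by_cases hd : d = 0
    · subst hd
      rw [hfin'.1, s3, hrep.1]
    · obtain ⟨j, hj⟩ := exists_top K hd
      have hj0 : Top 0 d j := by
        refine ⟨hj.1, fun i hi => ?_⟩
        have := hj.2 i hi
        unfold rk at this ⊢
        have := i.isLt
        have := j.isLt
        simp only [i.isLt, j.isLt, if_true] at *
        simp only [Nat.not_lt_zero, if_false]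
        omega
      rw [hfin'.2 d j hj0, hrep.2 d j hj, s3, s1]
      simp only [Pi.smul_apply, smul_eq_mul]
      ring

end Pool.Agent.Q234.BF
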