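import Pool.Agent.Q234.BF.Pair
import Pool.Agent.Q234.BF.Lump

/-! # One layer of the butterfly -/

set_option autoImplicit false

open MeasureTheory Real ProbabilityTheory

namespace Pool.Agent.Q234.BF

variable {K : ℕ} {M : Type} [Fintype M] [DecidableEq M] (e : M ≃ (Fin K → Fin 2))

/-- The mode obtained by flipping digit `l`. -/
def fl (l : Fin K) (i : M) : M := e.symm (e i + es l)

/-- The lower mode of the pair of `i`. -/
def lo (l : Fin K) (i : M) : M := if e i l = 0 then i else fl e l i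

/-- Sign of a mode in its pair. -/
def sg (l : Fin K) (i : M) : ℝ := if e i l = 0 then 1 else -1

omit [Fintype M] [DecidableEq M] in
lemma e_fl (l : Fin K) (i : M) : e (fl e l i) = e i + es l := by simp [fl]

omit [Fintype M] [DecidableEq M] in
lemma fl_fl (l : Fin K) (i : M) : fl e l (fl e l i) = i := by
  apply e.injective
  rw [e_fl, e_fl, add_assoc, es_add, add_zero]

omit [Fintype M] [DecidableEq M] in
lemma fl_ne (l : Fin K) (i : M) : fl e l i ≠ i := by
  intro h
  have := congrArg e h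
  rw [e_fl] at this
  exact es_ne_zero l (by simpa using this)

omit [Fintype M] [DecidableEq M] in
lemma e_fl_bit (l : Fin K) (i : M) : e (fl e l i) l = e i l + 1 := by
  rw [e_fl, Pi.add_apply, es_same]

omit [Fintype M] [DecidableEq M] in
lemma lo_zero {l : Fin K} {i : M} (h : e i l = 0) : lo e l i = i := if_pos h

omit [Fintype M] [DecidableEq M] in
lemma lo_one {l : Fin K} {i : M} (h : e i l = 1) : lo e l i = fl e l i :=
  if_neg (by rw [h]; decide)

omit [Fintype M] [DecidableEq M] in
lemma lo_fl (l : Fin K) (i : M) : lo e l (fl e l i) = lo e l i := by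
  rcases fin2_cases (e i l) with h | h
  · rw [lo_zero e h, lo_one e (by rw [e_fl_bit, h]; decide), fl_fl]
  · rw [lo_one e h, lo_zero e (by rw [e_fl_bit, h]; decide)]

omit [Fintype M] [DecidableEq M] in
lemma lo_eq_iff (l : Fin K) (a b : M) : lo e l a = lo e l b ↔ b = a ∨ b = fl e l a := by
  constructor
  · intro h
    rcases fin2_cases (e a l) with ha | ha <;> rcases fin2_cases (e b l) with hb | hb
    · rw [lo_zero e ha, lo_zero e hb] at h; exact Or.inl h.symm
    · rw [lo_zero e ha, lo_one e hb] at h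
      right; rw [h, fl_fl]
    · rw [lo_one e ha, lo_zero e hb] at h; exact Or.inr h.symm
    · rw [lo_one e ha, lo_one e hb] at h
      left
      rw [← fl_fl e l a, h, fl_fl]
  · rintro (h | h)
    · rw [h]
    · rw [h, lo_fl]

omit [Fintype M] [DecidableEq M] in
lemma sg_sq (l : Fin K) (i : M) : sg e l i * sg e l i = 1 := by
  unfold sg; split_ifs <;> norm_num

omit [Fintype M] [DecidableEq M] in
lemma sg_fl (l : Fin K) (i : M) : sg e l (fl e l i) = - sg e l i := by
  unfold sg
  rw [e_fl_bit]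
  rcases fin2_cases (e i l) with h | h <;> simp [h]

/-- Diagonal entries of a layer. -/
noncomputable def al (l : Fin K) (ω : M → ℝ × ℝ) (i : M) : ℂ :=
  if e i l = 0 then (cos (ω i).1 : ℂ) * Complex.exp (Complex.I * (ω i).2 / 2)
  else (cos (ω (fl e l i)).1 : ℂ) * Complex.exp (-(Complex.I * (ω (fl e l i)).2 / 2))

/-- Off-diagonal entries of a layer. -/
noncomputable def be (l : Fin K) (ω : M → ℝ × ℝ) (i : M) : ℂ :=
  if e i l = 0 then (sin (ω i).1 : ℂ) * Complex.exp (-(Complex.I * (ω i).2 / 2))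
  else -(sin (ω (fl e l i)).1 : ℂ) * Complex.exp (Complex.I * (ω (fl e l i)).2 / 2)

/-- The matrix of a layer. -/
noncomputable def lay (l : Fin K) (ω : M → ℝ × ℝ) : Matrix M M ℂ :=
  fun i j => if j = i then al e l ω i else if j = fl e l i then be e l ω i else 0

lemma lay_sum (l : Fin K) (ω : M → ℝ × ℝ) (i : M) (g : M → ℂ) :
    ∑ k, lay e l ω i k * g k = al e l ω i * g i + be e l ω i * g (fl e l i) := by
  have h : ∀ k, lay e l ω i k * g k = (if k = i then al e l ω i * g i else 0) +
      (if k = fl e l i then be e l ω i * g (fl e l i) else 0) := by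
    intro k
    unfold lay
    by_cases h1 : k = i
    · subst h1
      rw [if_pos rfl, if_pos rfl, if_neg (fl_ne e l k).symm, add_zero]
    · rw [if_neg h1, if_neg h1, zero_add]
      by_cases h2 : k = fl e l i
      · rw [if_pos h2, if_pos h2, h2]
      · rw [if_neg h2, if_neg h2, zero_mul]
  simp only [h, Finset.sum_add_distrib, Finset.sum_ite_eq', Finset.mem_univ, if_true]

lemma lay_mulVec (l : Fin K) (ω : M → ℝ × ℝ) (v : M → ℂ) (i : M) :
    (lay e l ω).mulVec v i = al e l ω i * v i + be e l ω i * v (fl e l i) :=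
  lay_sum e l ω i v

lemma star_exp (y : ℝ) : star (Complex.exp (Complex.I * y / 2)) =
    Complex.exp (-(Complex.I * y / 2)) := by
  rw [exp_half, exp_half_neg]
  apply Complex.ext <;> simp

lemma star_exp' (y : ℝ) : star (Complex.exp (-(Complex.I * y / 2))) =
    Complex.exp (Complex.I * y / 2) := by
  rw [← star_exp, star_star]

lemma exp_mul_exp (y : ℝ) : Complex.exp (Complex.I * y / 2) * Complex.exp (-(Complex.I * y / 2)) =
    1 := by
  rw [← Complex.exp_add, add_neg_cancel, Complex.exp_zero]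

lemma cs_one (x : ℝ) : (sin x : ℂ) ^ 2 + (cos x : ℂ) ^ 2 = 1 := by
  have := Real.sin_sq_add_cos_sq x
  exact_mod_cast this

lemma star_re (x : ℝ) : star (x : ℂ) = (x : ℂ) := Complex.conj_ofReal x

omit [Fintype M] [DecidableEq M] in
lemma al_norm (l : Fin K) (ω : M → ℝ × ℝ) (i : M) :
    al e l ω i * star (al e l ω i) + be e l ω i * star (be e l ω i) = 1 := by
  rcases fin2_cases (e i l) with h | h
  · simp only [al, be, h, if_true, star_mul, star_exp, star_exp', star_re]
    linear_combination ((sin (ω i).1 : ℂ) ^ 2 + (cos (ω i).1 : ℂ) ^ 2) * exp_mul_exp (ω i).2 +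
      cs_one (ω i).1
  · have h2 : ¬ ((1 : Fin 2) = 0) := by decide
    simp only [al, be, h, if_neg h2, star_mul, star_exp, star_exp', star_re, star_neg]
    linear_combination ((sin (ω (fl e l i)).1 : ℂ) ^ 2 + (cos (ω (fl e l i)).1 : ℂ) ^ 2) *
      exp_mul_exp (ω (fl e l i)).2 + cs_one (ω (fl e l i)).1

omit [Fintype M] [DecidableEq M] in
lemma al_be (l : Fin K) (ω : M → ℝ × ℝ) (i : M) :
    al e l ω i * star (be e l ω (fl e l i)) + be e l ω i * star (al e l ω (fl e l i)) = 0 := by
  have h2 : ¬ ((1 : Fin 2) = 0) := by decide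
  rcases fin2_cases (e i l) with h | h
  · have h3 : e (fl e l i) l = 1 := by rw [e_fl_bit, h]; decide
    simp only [al, be, h, h3, if_true, if_neg h2, star_mul, star_exp, star_exp', star_re, star_neg,
      fl_fl]
    ring
  · have h3 : e (fl e l i) l = 0 := by rw [e_fl_bit, h]; decide
    simp only [al, be, h, h3, if_true, if_neg h2, star_mul, star_exp, star_exp', star_re, star_neg,
      fl_fl]
    ring

lemma lay_unitary (l : Fin K) (ω : M → ℝ × ℝ) : lay e l ω ∈ Matrix.unitaryGroup M ℂ := by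
  rw [Matrix.mem_unitaryGroup_iff]
  ext i j
  rw [Matrix.mul_apply]
  simp only [Matrix.star_apply]
  rw [lay_sum e l ω i (fun k => star (lay e l ω j k))]
  simp only [lay]
  by_cases hij : i = j
  · subst hij
    rw [if_pos rfl, if_neg (fl_ne e l i), if_pos rfl, al_norm, Matrix.one_apply_eq]
  · rw [if_neg hij, Matrix.one_apply_ne hij]
    by_cases h2 : i = fl e l j
    · have h3 : j = fl e l i := by rw [h2, fl_fl]
      rw [if_pos h2, if_pos h3.symm, h3]
      exact al_be e l ω i
    · have h3 : ¬ (fl e l i = j) := by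
        intro h; apply h2; rw [← h, fl_fl]
      have h4 : ¬ (fl e l i = fl e l j) := by
        intro h; apply hij
        rw [← fl_fl e l i, h, fl_fl]
      rw [if_neg h2, if_neg h3, if_neg h4]
      simp

lemma lay_normSq (l : Fin K) (ω : M → ℝ × ℝ) (v : M → ℂ) (i : M) :
    Complex.normSq ((lay e l ω).mulVec v i) =
      (Complex.normSq (v i) + Complex.normSq (v (fl e l i))) / 2 +
      sg e l i * Dl (v (lo e l i)) (v (fl e l (lo e l i))) (ω (lo e l i)) := by
  rw [lay_mulVec]
  have h2 : ¬ ((1 : Fin 2) = 0) := by decide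
  rcases fin2_cases (e i l) with h | h
  · rw [lo_zero e h]
    simp only [al, be, sg, h, if_true, one_mul]
    rw [gate0]
  · rw [lo_one e h, fl_fl]
    simp only [al, be, sg, h, if_neg h2]
    rw [add_comm, gate1]
    ring

/-- The quadratic form with autocorrelation weights `f`. -/
noncomputable def qf (f : (Fin K → Fin 2) → ℂ) (x : M → ℝ) : ℂ :=
  ∑ a, ∑ b, f (e a + e b) * ((x a * x b : ℝ) : ℂ)

/-- The law of the angles of a layer. -/
noncomputable abbrev angs (M : Type) [Fintype M] : Measure (M → ℝ × ℝ) :=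
  Measure.pi (fun _ : M => ang)

omit [DecidableEq M] in
lemma G_mean (l : Fin K) (v : M → ℂ) (i : M) :
    HI (angs M) (fun ω : M → ℝ × ℝ => Dl (v i) (v (fl e l i)) (ω i)) 0 := by
  have h := Dl_mean (v i) (v (fl e l i))
  refine ⟨integrable_comp_eval (μ := fun _ : M => ang) h.1, ?_⟩
  rw [integral_comp_eval (μ := fun _ : M => ang) h.1.aestronglyMeasurable, h.2]

lemma G_sq (l : Fin K) (v : M → ℂ) (i j : M) :
    HI (angs M) (fun ω : M → ℝ × ℝ => Dl (v i) (v (fl e l i)) (ω i) *
      Dl (v j) (v (fl e l j)) (ω j))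
      (if i = j then (Complex.normSq (v i) ^ 2 + Complex.normSq (v (fl e l i)) ^ 2) / 8 else 0) := by
  by_cases hij : i = j
  · subst hij
    rw [if_pos rfl]
    have h := Dl_sq (v i) (v (fl e l i))
    simp only [← sq]
    refine ⟨integrable_comp_eval (μ := fun _ : M => ang)
      (f := fun a => Dl (v i) (v (fl e l i)) a ^ 2) h.1, ?_⟩
    rw [integral_comp_eval (μ := fun _ : M => ang) (f := fun a => Dl (v i) (v (fl e l i)) a ^ 2)
      h.1.aestronglyMeasurable, h.2]
  · rw [if_neg hij]
    have hind : IndepFun (fun ω : M → ℝ × ℝ => Dl (v i) (v (fl e l i)) (ω i))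
        (fun ω : M → ℝ × ℝ => Dl (v j) (v (fl e l j)) (ω j)) (angs M) :=
      (iIndepFun_pi (μ := fun _ : M => ang) (X := fun i => Dl (v i) (v (fl e l i)))
        (fun i => (Dl_cont _ _).aemeasurable)).indepFun hij
    refine ⟨hind.integrable_mul (G_mean e l v i).1 (G_mean e l v j).1, ?_⟩
    rw [hind.integral_fun_mul_eq_mul_integral (G_mean e l v i).1.aestronglyMeasurable
      (G_mean e l v j).1.aestronglyMeasurable, (G_mean e l v i).2, zero_mul]

/-- Second moments of the output weights. -/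
lemma second_moment (l : Fin K) (v : M → ℂ) (a b : M) :
    HI (angs M) (fun ω : M → ℝ × ℝ => Complex.normSq ((lay e l ω).mulVec v a) *
      Complex.normSq ((lay e l ω).mulVec v b))
    ((Complex.normSq (v a) + Complex.normSq (v (fl e l a))) / 2 *
      ((Complex.normSq (v b) + Complex.normSq (v (fl e l b))) / 2) +
    sg e l a * sg e l b * (if lo e l a = lo e l b then
      (Complex.normSq (v (lo e l a)) ^ 2 + Complex.normSq (v (fl e l (lo e l a))) ^ 2) / 8
      else 0)) := by
  simp only [lay_normSq]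
  set A := (Complex.normSq (v a) + Complex.normSq (v (fl e l a))) / 2
  set B := (Complex.normSq (v b) + Complex.normSq (v (fl e l b))) / 2
  refine (((HI.const (A * B)).add ((G_mean e l v (lo e l a)).mul (B * sg e l a))).add
    (((G_mean e l v (lo e l b)).mul (A * sg e l b)).add
      ((G_sq e l v (lo e l a) (lo e l b)).mul (sg e l a * sg e l b)))).congr ?_ ?_
  · intro ω; ring
  · ring

omit [DecidableEq M] in
lemma sum_fl (l : Fin K) (g : M → ℂ) : ∑ a, g (fl e l a) = ∑ a, g a :=
  Equiv.sum_comp ⟨fl e l, fl e l, fl_fl e l, fl_fl e l⟩ g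

/-- The diagonal part of the pairing. -/
lemma pair_sum (l : Fin K) (f : (Fin K → Fin 2) → ℂ) (x : M → ℝ) :
    ∑ a, ∑ b, f (e a + e b) * ((sg e l a * sg e l b * (if lo e l a = lo e l b then
      (x (lo e l a) ^ 2 + x (fl e l (lo e l a)) ^ 2) / 8 else 0) : ℝ) : ℂ) =
    (f 0 - f (es l)) / 4 * ∑ a, ((x a * x a : ℝ) : ℂ) := by
  have hself : ∀ a : M, e a + e a = 0 := by
    intro a; funext i
    rcases fin2_cases (e a i) with h | h <;> simp [h]
  have h1 : ∀ a : M, (x (lo e l a) ^ 2 + x (fl e l (lo e l a)) ^ 2) = x a ^ 2 + x (fl e l a) ^ 2 := by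
    intro a
    rcases fin2_cases (e a l) with h | h
    · rw [lo_zero e h]
    · rw [lo_one e h, fl_fl]; ring
  have h2 : ∀ a : M, ∑ b, f (e a + e b) * ((sg e l a * sg e l b * (if lo e l a = lo e l b then
      (x (lo e l a) ^ 2 + x (fl e l (lo e l a)) ^ 2) / 8 else 0) : ℝ) : ℂ) =
      (f 0 - f (es l)) * (((x a ^ 2 + x (fl e l a) ^ 2) / 8 : ℝ) : ℂ) := by
    intro a
    have h3 : ∀ b, f (e a + e b) * ((sg e l a * sg e l b * (if lo e l a = lo e l b then
      (x (lo e l a) ^ 2 + x (fl e l (lo e l a)) ^ 2) / 8 else 0) : ℝ) : ℂ) =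
      (if b = a then f 0 * (((x a ^ 2 + x (fl e l a) ^ 2) / 8 : ℝ) : ℂ) else 0) +
      (if b = fl e l a then - f (es l) * (((x a ^ 2 + x (fl e l a) ^ 2) / 8 : ℝ) : ℂ) else 0) := by
      intro b
      rw [h1]
      by_cases hb : b = a
      · subst hb
        rw [if_pos rfl, if_pos rfl, if_neg (fl_ne e l b).symm, hself, sg_sq, add_zero, one_mul]
      · rw [if_neg hb, zero_add]
        by_cases hb2 : b = fl e l a
        · subst hb2
          rw [if_pos (lo_fl e l a).symm, if_pos rfl, sg_fl, e_fl]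
          have h4 : e a + (e a + es l) = es l := by rw [← add_assoc, hself, zero_add]
          rw [h4]
          have h5 : sg e l a * -sg e l a = -1 := by rw [mul_neg, sg_sq]
          rw [h5]
          push_cast; ring
        · rw [if_neg hb2, if_neg (by
            rw [lo_eq_iff]
            push Not
            exact ⟨hb, hb2⟩)]
          simp
    simp only [h3, Finset.sum_add_distrib, Finset.sum_ite_eq', Finset.mem_univ, if_true]
    ring
  simp only [h2]
  rw [← Finset.mul_sum]
  have h6 : ∑ a : M, (((x a ^ 2 + x (fl e l a) ^ 2) / 8 : ℝ) : ℂ) =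
      (1/4) * ∑ a : M, ((x a * x a : ℝ) : ℂ) := by
    have h7 : ∀ a : M, (((x a ^ 2 + x (fl e l a) ^ 2) / 8 : ℝ) : ℂ) =
        (1/8) * ((x a * x a : ℝ) : ℂ) + (1/8) * ((x (fl e l a) * x (fl e l a) : ℝ) : ℂ) := by
      intro a; push_cast; ring
    simp only [h7, Finset.sum_add_distrib, ← Finset.mul_sum]
    rw [sum_fl e l (fun a => ((x a * x a : ℝ) : ℂ))]
    ring
  rw [h6]; ring

omit [DecidableEq M] in
lemma avg_sum (l : Fin K) (f : (Fin K → Fin 2) → ℂ) (x : M → ℝ) :
    ∑ a, ∑ b, f (e a + e b) * (((x a + x (fl e l a)) / 2 * ((x b + x (fl e l b)) / 2) : ℝ) : ℂ) =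
    ∑ a, ∑ b, (1/2) * (f (e a + e b) + f (e a + e b + es l)) * ((x a * x b : ℝ) : ℂ) := by
  have e1 : ∀ a b : M, f (e a + e b) *
      (((x a + x (fl e l a)) / 2 * ((x b + x (fl e l b)) / 2) : ℝ) : ℂ) =
      (1/4) * (f (e a + e b) * ((x a * x b : ℝ) : ℂ)) +
      (1/4) * (f (e a + e b) * ((x (fl e l a) * x b : ℝ) : ℂ)) +
      (1/4) * (f (e a + e b) * ((x a * x (fl e l b) : ℝ) : ℂ)) +
      (1/4) * (f (e a + e b) * ((x (fl e l a) * x (fl e l b) : ℝ) : ℂ)) := by
    intro a b; push_cast; ring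
  simp only [e1, Finset.sum_add_distrib, ← Finset.mul_sum]
  have s2 : ∑ a : M, ∑ b : M, f (e a + e b) * ((x (fl e l a) * x b : ℝ) : ℂ) =
      ∑ a : M, ∑ b : M, f (e a + e b + es l) * ((x a * x b : ℝ) : ℂ) := by
    rw [← sum_fl e l (fun a => ∑ b : M, f (e a + e b) * ((x (fl e l a) * x b : ℝ) : ℂ))]
    refine Finset.sum_congr rfl fun a _ => Finset.sum_congr rfl fun b _ => ?_
    rw [fl_fl, e_fl, add_right_comm]
  have s3 : ∑ a : M, ∑ b : M, f (e a + e b) * ((x a * x (fl e l b) : ℝ) : ℂ) =
      ∑ a : M, ∑ b : M, f (e a + e b + es l) * ((x a * x b : ℝ) : ℂ) := by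
    refine Finset.sum_congr rfl fun a _ => ?_
    rw [← sum_fl e l (fun b => f (e a + e b) * ((x a * x (fl e l b) : ℝ) : ℂ))]
    refine Finset.sum_congr rfl fun b _ => ?_
    rw [fl_fl, e_fl, add_assoc]
  have s4 : ∑ a : M, ∑ b : M, f (e a + e b) * ((x (fl e l a) * x (fl e l b) : ℝ) : ℂ) =
      ∑ a : M, ∑ b : M, f (e a + e b) * ((x a * x b : ℝ) : ℂ) := by
    rw [← sum_fl e l (fun a => ∑ b : M, f (e a + e b) * ((x (fl e l a) * x (fl e l b) : ℝ) : ℂ))]
    refine Finset.sum_congr rfl fun a _ => ?_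
    rw [← sum_fl e l (fun b => f (e (fl e l a) + e b) *
      ((x (fl e l (fl e l a)) * x (fl e l b) : ℝ) : ℂ))]
    refine Finset.sum_congr rfl fun b _ => ?_
    rw [fl_fl, fl_fl, e_fl, e_fl]
    congr 2
    rw [add_add_add_comm, es_add, add_zero]
  rw [s2, s3, s4]
  have e2 : ∀ a b : M, (1/2 : ℂ) * (f (e a + e b) + f (e a + e b + es l)) * ((x a * x b : ℝ) : ℂ) =
      (1/2) * (f (e a + e b) * ((x a * x b : ℝ) : ℂ)) +
      (1/2) * (f (e a + e b + es l) * ((x a * x b : ℝ) : ℂ)) := by
    intro a b; ring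
  simp only [e2, Finset.sum_add_distrib, ← Finset.mul_sum]
  ring

/-- One layer maps `qf f` to `qf (Qf f)` on average. -/
lemma layer_mean (l : Fin K) (f : (Fin K → Fin 2) → ℂ) (v : M → ℂ) :
    ∫ ω, qf e f (fun i => Complex.normSq ((lay e l ω).mulVec v i)) ∂(angs M) =
      qf e (Qf l f) (fun i => Complex.normSq (v i)) := by
  unfold qf
  have hi : ∀ a b : M, Integrable (fun ω : M → ℝ × ℝ => f (e a + e b) *
      ((Complex.normSq ((lay e l ω).mulVec v a) *
      Complex.normSq ((lay e l ω).mulVec v b) : ℝ) : ℂ)) (angs M) := fun a b =>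
    ((second_moment e l v a b).1.ofReal).const_mul _
  rw [integral_finsetSum _ (fun a _ => integrable_finsetSum _ (fun b _ => hi a b))]
  simp only [integral_finsetSum _ (fun b _ => hi _ b), integral_const_mul,
    integral_complex_ofReal]
  have h2 : ∀ a b : M, ∫ ω, Complex.normSq ((lay e l ω).mulVec v a) *
      Complex.normSq ((lay e l ω).mulVec v b) ∂(angs M) = _ := fun a b => (second_moment e l v a b).2
  simp only [h2]
  set x : M → ℝ := fun i => Complex.normSq (v i) with hx
  have hx' : ∀ i, Complex.normSq (v i) = x i := fun i => rfl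
  simp only [hx', Complex.ofReal_add, mul_add, Finset.sum_add_distrib]
  have p1 := pair_sum e l f x
  have p2 := avg_sum e l f x
  simp only [Complex.ofReal_mul] at p1 p2 ⊢
  rw [p1, p2]
  simp only [Qf, add_mul, Finset.sum_add_distrib]
  congr 1
  have hself : ∀ a b : M, e a + e b = 0 ↔ b = a := by
    intro a b
    constructor
    · intro h
      apply e.injective
      have : e a + e a = 0 := by
        funext i
        rcases fin2_cases (e a i) with h | h <;> simp [h]
      exact add_left_cancel (h.trans this.symm)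
    · rintro rfl
      funext i
      rcases fin2_cases (e b i) with h | h <;> simp [h]
  simp only [hself, ite_mul, zero_mul, Finset.sum_ite_eq', Finset.mem_univ, if_true]
  rw [Finset.mul_sum]
  refine Finset.sum_congr rfl fun a _ => ?_
  ring

end Pool.Agent.Q234.BF
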