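import Pool.Agent.Q234.BF.Circuit
import Pool.Agent.Q234.BF.Defs

/-! # A slow mode of the butterfly on two copies of `Λ²` -/

set_option autoImplicit false

open MeasureTheory Real

open scoped Kronecker

namespace Pool.Agent.Q234.BF

variable {K : ℕ}

/-- Binary digits. -/
def dg (K : ℕ) : Fin (2 ^ K) ≃ (Fin K → Fin 2) := finFunctionFinEquiv.symm

lemma dg_val (i : Fin (2 ^ K)) (l : Fin K) : ((dg K i l : Fin 2) : ℕ) = (i : ℕ) / 2 ^ (l : ℕ) % 2 :=
  rfl

lemma dg_zero_iff (i : Fin (2 ^ K)) (l : Fin K) : dg K i l = 0 ↔ (i : ℕ) / 2 ^ (l : ℕ) % 2 = 0 := by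
  rw [← dg_val, Fin.ext_iff]; rfl

lemma fl_val_zero (l : Fin K) (i : Fin (2 ^ K)) (h : dg K i l = 0) :
    ((fl (dg K) l i : Fin (2 ^ K)) : ℕ) = i + 2 ^ (l : ℕ) := by
  have h1 : ∀ f : Fin K → Fin 2, (((dg K).symm f : Fin (2 ^ K)) : ℕ) =
      ∑ t : Fin K, (f t : ℕ) * 2 ^ (t : ℕ) := fun f => finFunctionFinEquiv_apply f
  have h2 : (i : ℕ) = ∑ t : Fin K, (dg K i t : ℕ) * 2 ^ (t : ℕ) := by
    rw [← h1, Equiv.symm_apply_apply]
  rw [fl, h1]
  conv_rhs => rw [h2]
  rw [← Finset.add_sum_erase _ _ (Finset.mem_univ l), ← Finset.add_sum_erase Finset.univ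
    (fun t : Fin K => (dg K i t : ℕ) * 2 ^ (t : ℕ)) (Finset.mem_univ l)]
  have h3 : ∑ t ∈ Finset.univ.erase l, (((dg K i + es l) t : Fin 2) : ℕ) * 2 ^ (t : ℕ) =
      ∑ t ∈ Finset.univ.erase l, (dg K i t : ℕ) * 2 ^ (t : ℕ) := by
    refine Finset.sum_congr rfl fun t ht => ?_
    rw [Pi.add_apply, es_ne (Finset.ne_of_mem_erase ht), add_zero]
  rw [h3, Pi.add_apply, h, es_same]
  simp
  ring

lemma fl_val_one (l : Fin K) (i : Fin (2 ^ K)) (h : dg K i l = 1) :
    ((fl (dg K) l i : Fin (2 ^ K)) : ℕ) + 2 ^ (l : ℕ) = i := by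
  have := fl_val_zero l (fl (dg K) l i) (by rw [e_fl_bit, h]; decide)
  rw [fl_fl] at this
  exact this.symm

lemma lower_eq (l : Fin K) (i : Fin (2 ^ K)) : lower l i = lo (dg K) l i := by
  unfold lower lo
  rcases fin2_cases (dg K i l) with h | h
  · rw [if_pos ((dg_zero_iff i l).1 h), if_pos h]
  · have h2 : ¬ (dg K i l = 0) := by rw [h]; decide
    rw [if_neg (fun h3 => h2 ((dg_zero_iff i l).2 h3)), if_neg h2]
    apply Fin.ext
    have := fl_val_one l i h
    simp only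
    omega

lemma layer_eq (l : Fin K) (ω : Fin (2 ^ K) → ℝ × ℝ) : layer l ω = lay (dg K) l ω := by
  ext i j
  unfold layer lay
  rw [lower_eq]
  rcases fin2_cases (dg K i l) with h | h
  · rw [if_pos ((dg_zero_iff i l).1 h), lo_zero _ h]
    have h1 := fl_val_zero l i h
    have h2 : ((j : ℕ) = i + 2 ^ (l : ℕ)) ↔ j = fl (dg K) l i := by
      rw [← h1, Fin.ext_iff]
    simp only [h2, al, be, if_pos h]
  · have h0 : ¬ (dg K i l = 0) := by rw [h]; decide
    rw [if_neg (fun h3 => h0 ((dg_zero_iff i l).2 h3)), lo_one _ h]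
    have h1 := fl_val_one l i h
    have h2 : ((j : ℕ) + 2 ^ (l : ℕ) = i) ↔ j = fl (dg K) l i := by
      rw [← h1, Fin.ext_iff]; omega
    simp only [h2, al, be, if_neg h0]

lemma butterfly_eq (ω : Fin K → Fin (2 ^ K) → ℝ × ℝ) :
    butterfly K ω = Wc (dg K) (fun l : Fin K => l) ω := by
  unfold butterfly Wc
  simp only [layer_eq]

abbrev VV (K : ℕ) : Type :=
  Matrix (PP (Fin (2 ^ K)) × PP (Fin (2 ^ K))) (PP (Fin (2 ^ K)) × PP (Fin (2 ^ K))) ℂ

lemma Phi_apply (Y : VV K) (p q : PP (Fin (2 ^ K)) × PP (Fin (2 ^ K))) :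
    Phi K Y p q = ∫ ω, cj (Wc (dg K) (fun l : Fin K => l) ω) Y p q ∂(circ K (Fin (2 ^ K))) := by
  unfold Phi
  simp only [Matrix.of_apply, butterfly_eq]
  rfl

lemma cj_integrable (Y : VV K) (p q : PP (Fin (2 ^ K)) × PP (Fin (2 ^ K))) :
    Integrable (fun ω => cj (Wc (dg K) (fun l : Fin K => l) ω) Y p q) (circ K (Fin (2 ^ K))) := by
  refine Integrable.of_bound ?_ _ (Filter.Eventually.of_forall fun ω =>
    cj_bound (Wc_unitary (dg K) (fun l : Fin K => l) ω) Y p q)
  exact ((cj_cont (Wc_cont (dg K) (fun l : Fin K => l)) Y).matrix_elem p q).aestronglyMeasurable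

/-- `Φ_n` as a linear map. -/
noncomputable def PhiL (K : ℕ) : VV K →ₗ[ℂ] VV K where
  toFun := Phi K
  map_add' := by
    intro Y Z
    ext p q
    rw [Matrix.add_apply, Phi_apply, Phi_apply, Phi_apply,
      ← integral_add (cj_integrable Y p q) (cj_integrable Z p q)]
    simp only [cj_add, Matrix.add_apply]
  map_smul' := by
    intro c Y
    ext p q
    rw [Matrix.smul_apply, Phi_apply, RingHom.id_apply, Phi_apply, smul_eq_mul,
      ← integral_const_mul]
    simp only [cj_smul, Matrix.smul_apply, smul_eq_mul]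

/-- Linear functionals commute with the average. -/
lemma func_Phi (h : VV K →ₗ[ℂ] ℂ) (Y : VV K) :
    h (Phi K Y) = ∫ ω, h (cj (Wc (dg K) (fun l : Fin K => l) ω) Y) ∂(circ K (Fin (2 ^ K))) := by
  have hexp : ∀ Z : VV K, h Z = ∑ p, ∑ q, h (Matrix.single p q 1) * Z p q := by
    intro Z
    conv_lhs => rw [Matrix.matrix_eq_sum_single Z]
    simp only [map_sum]
    refine Finset.sum_congr rfl fun p _ => Finset.sum_congr rfl fun q _ => ?_
    have : Matrix.single p q (Z p q) = Z p q • Matrix.single p q (1 : ℂ) := by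
      rw [Matrix.smul_single, smul_eq_mul, mul_one]
    rw [this, map_smul, smul_eq_mul, mul_comm]
  rw [hexp (Phi K Y)]
  simp only [hexp (cj _ Y)]
  rw [integral_finsetSum _ (fun p _ => integrable_finsetSum _ (fun q _ =>
    (cj_integrable Y p q).const_mul _))]
  refine Finset.sum_congr rfl fun p _ => ?_
  rw [integral_finsetSum _ (fun q _ => (cj_integrable Y p q).const_mul _)]
  refine Finset.sum_congr rfl fun q _ => ?_
  rw [integral_const_mul, Phi_apply]

/-- A functional of the diagonal. -/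
noncomputable def gw (w : PP (Fin (2 ^ K)) × PP (Fin (2 ^ K)) → ℂ) : VV K →ₗ[ℂ] ℂ where
  toFun := fun Y => ∑ p, w p * Y p p
  map_add' := by
    intro Y Z
    simp only [Matrix.add_apply, mul_add, Finset.sum_add_distrib]
  map_smul' := by
    intro c Y
    simp only [Matrix.smul_apply, smul_eq_mul, RingHom.id_apply, Finset.mul_sum]
    refine Finset.sum_congr rfl fun p _ => ?_
    ring

lemma exists_func (hK : 2 ≤ K) (f : (Fin K → Fin 2) → ℂ) : ∃ g : VV K →ₗ[ℂ] ℂ,
    ∀ v : Fin (2 ^ K) → ℂ, g (Av v ⊗ₖ Av v) = qf (dg K) f (fun i => Complex.normSq (v i)) := by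
  have l0 : Fin K := ⟨0, by omega⟩
  have hne : (⟨0, by omega⟩ : Fin K) ≠ ⟨1, by omega⟩ := by
    intro h; rw [Fin.mk.injEq] at h; exact absurd h (by decide)
  have htr : ∀ a : Fin (2 ^ K), ∃ L : PP (Fin (2 ^ K)) → ℂ, ∀ x : Fin (2 ^ K) → ℂ,
      ∑ p, L p * (x p.1.1 + x p.1.2) = x a := by
    intro a
    have hbc : fl (dg K) ⟨0, by omega⟩ a ≠ fl (dg K) ⟨1, by omega⟩ a := by
      intro h
      have h2 := congrArg (dg K) h
      rw [e_fl, e_fl] at h2
      have h3 := congrFun (add_left_cancel h2) ⟨0, by omega⟩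
      rw [es_same, es_ne hne] at h3
      exact absurd h3 (by decide)
    obtain ⟨s1, s2, s3, hs⟩ := exists_triple (fl_ne (dg K) ⟨0, by omega⟩ a).symm
      (fl_ne (dg K) ⟨1, by omega⟩ a).symm hbc
    refine ⟨fun p => (1/2) * ((if p = s1 then 1 else 0) + (if p = s2 then 1 else 0) -
      (if p = s3 then 1 else 0)), fun x => ?_⟩
    rw [← hs x]
    have : ∀ p : PP (Fin (2 ^ K)), (1/2 : ℂ) * ((if p = s1 then 1 else 0) +
        (if p = s2 then 1 else 0) - (if p = s3 then 1 else 0)) * (x p.1.1 + x p.1.2) =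
        (1/2) * ((if p = s1 then (x p.1.1 + x p.1.2) else 0) +
        (if p = s2 then (x p.1.1 + x p.1.2) else 0) -
        (if p = s3 then (x p.1.1 + x p.1.2) else 0)) := by
      intro p
      split_ifs <;> ring
    simp only [this]
    rw [← Finset.mul_sum, Finset.sum_sub_distrib, Finset.sum_add_distrib]
    simp only [Finset.sum_ite_eq', Finset.mem_univ, if_true]
  choose L hL using htr
  refine ⟨gw (fun pr => ∑ a, ∑ b, f (dg K a + dg K b) * (L a pr.1 * L b pr.2)), fun v => ?_⟩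
  set x : Fin (2 ^ K) → ℂ := fun i => (Complex.normSq (v i) : ℂ) with hx
  have hd : ∀ p : PP (Fin (2 ^ K)), Av v p p = x p.1.1 + x p.1.2 := by
    intro p; rw [Av_diag]; push_cast; rfl
  show ∑ pr : PP (Fin (2 ^ K)) × PP (Fin (2 ^ K)),
    (∑ a, ∑ b, f (dg K a + dg K b) * (L a pr.1 * L b pr.2)) * (Av v ⊗ₖ Av v) pr pr = _
  simp only [Matrix.kroneckerMap_apply, hd]
  unfold qf
  simp only [Finset.sum_mul]
  rw [Finset.sum_comm]
  refine Finset.sum_congr rfl fun a _ => ?_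
  rw [Finset.sum_comm]
  refine Finset.sum_congr rfl fun b _ => ?_
  have h1 := hL a x
  have h2 := hL b x
  have : ((Complex.normSq (v a) * Complex.normSq (v b) : ℝ) : ℂ) = x a * x b := by
    push_cast; rfl
  rw [this, ← h1, ← h2, Finset.sum_mul_sum, Finset.mul_sum, Fintype.sum_prod_type]
  refine Finset.sum_congr rfl fun p _ => ?_
  rw [Finset.mul_sum]
  refine Finset.sum_congr rfl fun q _ => ?_
  ring

/-- Iterating the round. -/
lemma iterate (f : (Fin K → Fin 2) → ℂ) (μ : ℂ) (hf : Qtot K f = fun d => μ * f d)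
    (g : VV K →ₗ[ℂ] ℂ)
    (hg : ∀ v : Fin (2 ^ K) → ℂ, g (Av v ⊗ₖ Av v) = qf (dg K) f (fun i => Complex.normSq (v i)))
    (k : ℕ) : ∀ v : Fin (2 ^ K) → ℂ, g ((PhiL K ^ k) (Av v ⊗ₖ Av v)) =
      μ ^ k * qf (dg K) f (fun i => Complex.normSq (v i)) := by
  induction k with
  | zero => intro v; simp [hg]
  | succ k ih =>
    intro v
    rw [pow_succ, Module.End.mul_apply]
    have h1 := func_Phi (g ∘ₗ (PhiL K ^ k)) (Av v ⊗ₖ Av v)
    simp only [LinearMap.comp_apply] at h1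
    have h2 : (PhiL K) (Av v ⊗ₖ Av v) = Phi K (Av v ⊗ₖ Av v) := rfl
    rw [h2, h1]
    have h3 : ∀ ω : Fin K → Fin (2 ^ K) → ℝ × ℝ,
        g ((PhiL K ^ k) (cj (Wc (dg K) (fun l : Fin K => l) ω) (Av v ⊗ₖ Av v))) =
        μ ^ k * qf (dg K) f (fun i => Complex.normSq
          ((Wc (dg K) (fun l : Fin K => l) ω).mulVec v i)) := by
      intro ω
      rw [cj_Av (Wc_unitary _ _ _), ih]
    simp only [h3]
    rw [integral_const_mul, circuit_mean]
    have h4 : (List.finRange K).foldr (fun t g => Qf t g) f = Qtot K f := rfl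
    rw [h4, hf, pow_succ, mul_assoc]
    congr 1
    unfold qf
    rw [Finset.mul_sum]
    refine Finset.sum_congr rfl fun a _ => ?_
    rw [Finset.mul_sum]
    refine Finset.sum_congr rfl fun b _ => ?_
    ring

lemma qf_indicator (f : (Fin K → Fin 2) → ℂ) (S : Finset (Fin (2 ^ K))) :
    qf (dg K) f (fun i => Complex.normSq (if i ∈ S then (1 : ℂ) else 0)) =
      ∑ a ∈ S, ∑ b ∈ S, f (dg K a + dg K b) := by
  unfold qf
  have h : ∀ a b : Fin (2 ^ K), f (dg K a + dg K b) *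
      ((Complex.normSq (if a ∈ S then (1 : ℂ) else 0) *
        Complex.normSq (if b ∈ S then (1 : ℂ) else 0) : ℝ) : ℂ) =
      if a ∈ S then (if b ∈ S then f (dg K a + dg K b) else 0) else 0 := by
    intro a b
    split_ifs <;> simp
  simp only [h]
  have h2 : ∀ a : Fin (2 ^ K), (∑ b : Fin (2 ^ K),
      if a ∈ S then (if b ∈ S then f (dg K a + dg K b) else 0) else 0) =
      if a ∈ S then ∑ b ∈ S, f (dg K a + dg K b) else 0 := by
    intro a
    split_ifs
    · rw [Finset.sum_ite_mem, Finset.univ_inter]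
    · simp
  simp only [h2]
  rw [Finset.sum_ite_mem, Finset.univ_inter]

lemma exists_vec (f : (Fin K → Fin 2) → ℂ) (hf : f ≠ 0) :
    ∃ v : Fin (2 ^ K) → ℂ, qf (dg K) f (fun i => Complex.normSq (v i)) ≠ 0 := by
  have hself : ∀ d : Fin K → Fin 2, d + d = 0 := by
    intro d; funext i
    rcases fin2_cases (d i) with h | h <;> simp [h]
  by_cases h0 : f 0 = 0
  · obtain ⟨d, hd⟩ := Function.ne_iff.1 hf
    have hd0 : d ≠ 0 := by rintro rfl; exact hd h0
    refine ⟨fun i => if i ∈ ({(dg K).symm 0, (dg K).symm d} : Finset (Fin (2 ^ K))) then 1 else 0,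
      ?_⟩
    rw [qf_indicator]
    have hne : (dg K).symm 0 ≠ (dg K).symm d := fun h => hd0 ((dg K).symm.injective h).symm
    rw [Finset.sum_pair hne, Finset.sum_pair hne, Finset.sum_pair hne]
    simp only [Equiv.apply_symm_apply, add_zero, zero_add, hself, h0]
    have hd' : f d ≠ 0 := hd
    intro h
    apply hd'
    linear_combination (1/2) * h
  · refine ⟨fun i => if i ∈ ({(dg K).symm 0} : Finset (Fin (2 ^ K))) then 1 else 0, ?_⟩
    rw [qf_indicator, Finset.sum_singleton, Finset.sum_singleton]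
    simpa using h0

lemma exists_eigen (hK : 2 ≤ K) : ∃ μ : ℂ, (1/3) * (3/4) ^ K ≤ ‖μ‖ ∧ ‖μ‖ ≤ (3/4) ^ K ∧
    ∃ Y : VV K, Y ≠ 0 ∧ Phi K Y = μ • Y := by
  obtain ⟨μ, x, h1, h2, hx, hB⟩ := exists_eig (K := K) (by omega)
  have hμ : μ ≠ 1 := by
    rintro rfl
    rw [norm_one] at h2
    have : (3/4 : ℝ) ^ K < 1 := pow_lt_one₀ (by norm_num) (by norm_num) (by omega)
    linarith
  obtain ⟨f, hf0, hf⟩ := exists_f hμ hx hB
  obtain ⟨g, hg⟩ := exists_func hK f
  obtain ⟨v, hv⟩ := exists_vec f hf0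
  have hit := iterate f μ hf g hg
  refine ⟨μ, h1, h2, ?_⟩
  have hroot : (minpoly ℂ (PhiL K)).IsRoot μ := by
    have h3 : ∀ p : Polynomial ℂ, g ((Polynomial.aeval (PhiL K) p) (Av v ⊗ₖ Av v)) =
        p.eval μ * qf (dg K) f (fun i => Complex.normSq (v i)) := by
      intro p
      rw [Polynomial.aeval_eq_sum_range, Polynomial.eval_eq_sum_range, LinearMap.sum_apply,
        map_sum, Finset.sum_mul]
      refine Finset.sum_congr rfl fun k _ => ?_
      rw [LinearMap.smul_apply, map_smul, hit, smul_eq_mul, mul_assoc]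
    have h4 := h3 (minpoly ℂ (PhiL K))
    rw [minpoly.aeval, LinearMap.zero_apply, map_zero] at h4
    exact (mul_eq_zero.1 h4.symm).resolve_right hv
  have hev := Module.End.hasEigenvalue_of_isRoot hroot
  obtain ⟨Y, hY⟩ := hev.exists_hasEigenvector
  exact ⟨Y, hY.2, hY.apply_eq_smul⟩

end Pool.Agent.Q234.BF
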