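import Pool.Agent.Q234.BF.Gate

/-! # Moments of the fluctuation of one gate -/

set_option autoImplicit false

open MeasureTheory Real

namespace Pool.Agent.Q234.BF

/-- The law of the two angles of a gate. -/
noncomputable abbrev ang : Measure (ℝ × ℝ) := unif.prod unif

/-- The fluctuation of `|(V v)_0|^2`. -/
noncomputable def Dl (s t : ℂ) (a : ℝ × ℝ) : ℝ :=
  (Complex.normSq s - Complex.normSq t) / 2 * cos (2 * a.1) +
    sin (2 * a.1) * ((s * star t).re * cos a.2 - (s * star t).im * sin a.2)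

lemma Dl_cont (s t : ℂ) : Continuous (Dl s t) := by
  unfold Dl
  fun_prop

lemma exp_half (y : ℝ) : Complex.exp (Complex.I * y / 2) = ⟨cos (y / 2), sin (y / 2)⟩ := by
  have : Complex.I * (y : ℂ) / 2 = ((y / 2 : ℝ) : ℂ) * Complex.I := by push_cast; ring
  rw [this]
  exact Complex.ext (Complex.exp_ofReal_mul_I_re _) (Complex.exp_ofReal_mul_I_im _)

lemma exp_half_neg (y : ℝ) :
    Complex.exp (-(Complex.I * y / 2)) = ⟨cos (y / 2), -sin (y / 2)⟩ := by
  have : -(Complex.I * (y : ℂ) / 2) = ((-(y / 2) : ℝ) : ℂ) * Complex.I := by push_cast; ring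
  rw [this]
  refine Complex.ext ?_ ?_
  · rw [Complex.exp_ofReal_mul_I_re, Real.cos_neg]
  · rw [Complex.exp_ofReal_mul_I_im, Real.sin_neg]

lemma gate0 (s t : ℂ) (a : ℝ × ℝ) :
    Complex.normSq ((cos a.1 : ℂ) * Complex.exp (Complex.I * a.2 / 2) * s +
      (sin a.1 : ℂ) * Complex.exp (-(Complex.I * a.2 / 2)) * t) =
    (Complex.normSq s + Complex.normSq t) / 2 + Dl s t a := by
  obtain ⟨x, y⟩ := a
  obtain ⟨s1, s2⟩ := s
  obtain ⟨t1, t2⟩ := t
  simp only [exp_half, exp_half_neg, Dl]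
  have hy : y = 2 * (y / 2) := by ring
  have c1 : cos y = cos (y/2) ^ 2 - sin (y/2) ^ 2 := by
    conv_lhs => rw [hy]
    rw [Real.cos_two_mul']
  have c2 : sin y = 2 * sin (y/2) * cos (y/2) := by
    conv_lhs => rw [hy]
    rw [Real.sin_two_mul]
  rw [c1, c2, Real.cos_two_mul', Real.sin_two_mul]
  have h1 := Real.sin_sq_add_cos_sq x
  have h2 := Real.sin_sq_add_cos_sq (y/2)
  generalize cos x = C at *
  generalize sin x = S at *
  generalize cos (y/2) = c at *
  generalize sin (y/2) = d at *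
  simp only [Complex.normSq_apply, Complex.add_re, Complex.add_im, Complex.mul_re, Complex.mul_im,
    Complex.ofReal_re, Complex.ofReal_im, Complex.star_def, Complex.conj_re, Complex.conj_im]
  have hC : C ^ 2 = 1 - S ^ 2 := by linarith
  have hc : c ^ 2 = 1 - d ^ 2 := by linarith
  linear_combination (exp := 1) ((s1^2+s2^2) * C^2 + (t1^2+t2^2)*S^2) * h2 + (s1^2+s2^2+t1^2+t2^2)/2 * h1

lemma gate1 (s t : ℂ) (a : ℝ × ℝ) :
    Complex.normSq (-(sin a.1 : ℂ) * Complex.exp (Complex.I * a.2 / 2) * s +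
      (cos a.1 : ℂ) * Complex.exp (-(Complex.I * a.2 / 2)) * t) =
    (Complex.normSq s + Complex.normSq t) / 2 - Dl s t a := by
  obtain ⟨x, y⟩ := a
  obtain ⟨s1, s2⟩ := s
  obtain ⟨t1, t2⟩ := t
  simp only [exp_half, exp_half_neg, Dl]
  have hy : y = 2 * (y / 2) := by ring
  have c1 : cos y = cos (y/2) ^ 2 - sin (y/2) ^ 2 := by
    conv_lhs => rw [hy]
    rw [Real.cos_two_mul']
  have c2 : sin y = 2 * sin (y/2) * cos (y/2) := by
    conv_lhs => rw [hy]
    rw [Real.sin_two_mul]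
  rw [c1, c2, Real.cos_two_mul', Real.sin_two_mul]
  have h1 := Real.sin_sq_add_cos_sq x
  have h2 := Real.sin_sq_add_cos_sq (y/2)
  generalize cos x = C at *
  generalize sin x = S at *
  generalize cos (y/2) = c at *
  generalize sin (y/2) = d at *
  simp only [Complex.normSq_apply, Complex.add_re, Complex.add_im, Complex.mul_re, Complex.mul_im,
    Complex.neg_re, Complex.neg_im,
    Complex.ofReal_re, Complex.ofReal_im, Complex.star_def, Complex.conj_re, Complex.conj_im]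
  linear_combination (exp := 1) ((s1^2+s2^2) * S^2 + (t1^2+t2^2)*C^2) * h2 + (s1^2+s2^2+t1^2+t2^2)/2 * h1

/-- `f` is integrable with integral `u`. -/
def HI {Ω : Type} [MeasurableSpace Ω] (μ : Measure Ω) (f : Ω → ℝ) (u : ℝ) : Prop :=
  Integrable f μ ∧ ∫ a, f a ∂μ = u

variable {Ω : Type} [MeasurableSpace Ω] {μ : Measure Ω}

lemma HI.add {f g : Ω → ℝ} {u v : ℝ} (hf : HI μ f u) (hg : HI μ g v) :
    HI μ (fun a => f a + g a) (u + v) :=
  ⟨hf.1.add hg.1, by rw [integral_add hf.1 hg.1, hf.2, hg.2]⟩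

lemma HI.mul {f : Ω → ℝ} {u : ℝ} (c : ℝ) (hf : HI μ f u) : HI μ (fun a => c * f a) (c * u) :=
  ⟨hf.1.const_mul c, by rw [integral_const_mul, hf.2]⟩

lemma HI.const [IsProbabilityMeasure μ] (c : ℝ) : HI μ (fun _ => c) c :=
  ⟨integrable_const _, by simp⟩

lemma HI.congr {f g : Ω → ℝ} {u v : ℝ} (hf : HI μ f u) (h : ∀ a, g a = f a) (huv : u = v) :
    HI μ g v := by
  have : g = f := funext h
  rw [this, ← huv]; exact hf

lemma HI.prod {f g : ℝ → ℝ} (hf : Continuous f) (hg : Continuous g) (hf1 : ∀ x, |f x| ≤ 1)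
    (hg1 : ∀ x, |g x| ≤ 1) {u v : ℝ} (hu : ∫ x, f x ∂unif = u) (hv : ∫ x, g x ∂unif = v) :
    HI ang (fun a => f a.1 * g a.2) (u * v) := by
  refine ⟨?_, ?_⟩
  · refine Integrable.of_bound (by fun_prop) 1 (Filter.Eventually.of_forall fun x => ?_)
    rw [Real.norm_eq_abs, abs_mul]
    exact mul_le_one₀ (hf1 _) (abs_nonneg _) (hg1 _)
  · rw [← hu, ← hv]; exact integral_prod_mul f g

lemma abs_mul_le_one {a b : ℝ} (ha : |a| ≤ 1) (hb : |b| ≤ 1) : |a * b| ≤ 1 := by
  rw [abs_mul]; exact mul_le_one₀ ha (abs_nonneg _) hb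

lemma abs_sq_le_one {a : ℝ} (ha : |a| ≤ 1) : |a ^ 2| ≤ 1 := by
  rw [sq]; exact abs_mul_le_one ha ha

lemma Dl_mean (s t : ℂ) : HI ang (Dl s t) 0 := by
  have c2 : ∀ x : ℝ, |cos (2 * x)| ≤ 1 := fun x => Real.abs_cos_le_one _
  have s2 : ∀ x : ℝ, |sin (2 * x)| ≤ 1 := fun x => Real.abs_sin_le_one _
  have i1 := HI.prod (f := fun x => cos (2 * x)) (g := fun _ => 1) (by fun_prop) (by fun_prop) c2
    (fun _ => by simp) unif_cos2 rfl
  have i2 := HI.prod (f := fun x => sin (2 * x)) (g := fun x => cos x) (by fun_prop)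
    (by fun_prop) s2 Real.abs_cos_le_one unif_sin2 rfl
  have i3 := HI.prod (f := fun x => sin (2 * x)) (g := fun x => sin x) (by fun_prop)
    (by fun_prop) s2 Real.abs_sin_le_one unif_sin2 rfl
  refine ((i1.mul ((Complex.normSq s - Complex.normSq t) / 2)).add
    ((i2.mul (s * star t).re).add (i3.mul (-(s * star t).im)))).congr ?_ ?_
  · intro a; unfold Dl; ring
  · ring

lemma Dl_sq (s t : ℂ) :
    HI ang (fun a => Dl s t a ^ 2) ((Complex.normSq s ^ 2 + Complex.normSq t ^ 2) / 8) := by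
  have c2 : ∀ x : ℝ, |cos (2 * x)| ≤ 1 := fun x => Real.abs_cos_le_one _
  have s2 : ∀ x : ℝ, |sin (2 * x)| ≤ 1 := fun x => Real.abs_sin_le_one _
  have i1 := HI.prod (f := fun x => cos (2 * x) ^ 2) (g := fun _ => 1) (by fun_prop) (by fun_prop)
    (fun x => abs_sq_le_one (c2 x)) (fun _ => by simp) unif_cos2_sq (v := 1) (by simp)
  have i2 := HI.prod (f := fun x => sin (2 * x) * cos (2 * x)) (g := fun x => cos x)
    (by fun_prop) (by fun_prop) (fun x => abs_mul_le_one (s2 x) (c2 x)) Real.abs_cos_le_one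
    unif_sin2_cos2 rfl
  have i3 := HI.prod (f := fun x => sin (2 * x) * cos (2 * x)) (g := fun x => sin x)
    (by fun_prop) (by fun_prop) (fun x => abs_mul_le_one (s2 x) (c2 x)) Real.abs_sin_le_one
    unif_sin2_cos2 rfl
  have i4 := HI.prod (f := fun x => sin (2 * x) ^ 2) (g := fun x => cos x ^ 2)
    (by fun_prop) (by fun_prop) (fun x => abs_sq_le_one (s2 x))
    (fun x => abs_sq_le_one (Real.abs_cos_le_one x)) unif_sin2_sq unif_cos_sq
  have i5 := HI.prod (f := fun x => sin (2 * x) ^ 2) (g := fun x => sin x ^ 2)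
    (by fun_prop) (by fun_prop) (fun x => abs_sq_le_one (s2 x))
    (fun x => abs_sq_le_one (Real.abs_sin_le_one x)) unif_sin2_sq unif_sin_sq
  have i6 := HI.prod (f := fun x => sin (2 * x) ^ 2) (g := fun x => sin x * cos x)
    (by fun_prop) (by fun_prop) (fun x => abs_sq_le_one (s2 x))
    (fun x => abs_mul_le_one (Real.abs_sin_le_one x) (Real.abs_cos_le_one x))
    unif_sin2_sq unif_sin_cos
  set B := (Complex.normSq s - Complex.normSq t) / 2 with hB
  set p := (s * star t).re with hp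
  set q := (s * star t).im with hq
  have hpq : p ^ 2 + q ^ 2 = Complex.normSq s * Complex.normSq t := by
    have : Complex.normSq (s * star t) = Complex.normSq s * Complex.normSq t := by
      rw [Complex.normSq_mul, Complex.star_def, Complex.normSq_conj]
    rw [← this, Complex.normSq_apply]; ring
  refine ((i1.mul (B ^ 2)).add ((i2.mul (2 * B * p)).add ((i3.mul (-2 * B * q)).add
    ((i4.mul (p ^ 2)).add ((i5.mul (q ^ 2)).add (i6.mul (-2 * p * q))))))).congr ?_ ?_
  · intro a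
    simp only [Dl, ← hB, ← hp, ← hq]
    ring
  · rw [hB]
    linear_combination (1/4) * hpq

end Pool.Agent.Q234.BF
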