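import Mathlib

/-! # The lumped chain: an eigenvalue of size at least `(1/3) (3/4)^K` -/

set_option autoImplicit false

open scoped NNReal ENNReal Topology

namespace Pool.Agent.Q234.BF

lemma fold_down {σ τ : Type*} : ∀ (K : ℕ) (P : ℕ → σ → τ → Prop) (s : Fin K → σ → σ)
    (s' : Fin K → τ → τ) (_ : ∀ (l : Fin K) x y, P (l + 1) x y → P l (s l x) (s' l y))
    (x : σ) (y : τ) (_ : P K x y),
    P 0 ((List.finRange K).foldr s x) ((List.finRange K).foldr s' y) := by
  intro K
  induction K with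
  | zero => intro P s s' h x y hx; simpa using hx
  | succ K ih =>
    intro P s s' h x y hx
    rw [List.finRange_succ, List.foldr_cons, List.foldr_cons, List.foldr_map, List.foldr_map]
    have := ih (fun m => P (m + 1)) (fun l => s l.succ) (fun l => s' l.succ)
      (fun l x y hxy => by
        have := h l.succ x y (by simpa using hxy)
        simpa using this) x y hx
    have h0 := h 0 _ _ (by simpa using this)
    simpa using h0

variable {K : ℕ}

/-- One step of the chain on differences. -/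
noncomputable def Bfun (l : Fin K) (x : Fin K → ℂ) : Fin K → ℂ :=
  fun c => (if c = l then 0 else (1/2 : ℂ) * x c) + (1/4 : ℂ) * x l

/-- The same as a continuous linear map. -/
noncomputable def Bstep (l : Fin K) : (Fin K → ℂ) →L[ℂ] (Fin K → ℂ) :=
  LinearMap.toContinuousLinearMap
    { toFun := Bfun l
      map_add' := by
        intro x y; funext c; simp only [Bfun, Pi.add_apply]; split_ifs <;> ring
      map_smul' := by
        intro r x; funext c
        simp only [Bfun, Pi.smul_apply, smul_eq_mul, RingHom.id_apply]; split_ifs <;> ring }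

lemma Bstep_apply (l : Fin K) (x : Fin K → ℂ) : Bstep l x = Bfun l x := rfl

lemma Bstep_norm (l : Fin K) : ‖Bstep l‖ ≤ 3/4 := by
  refine ContinuousLinearMap.opNorm_le_bound _ (by norm_num) fun x => ?_
  rw [pi_norm_le_iff_of_nonneg (by positivity)]
  intro c
  rw [Bstep_apply, Bfun]
  have h1 := norm_le_pi_norm x c
  have h2 := norm_le_pi_norm x l
  split_ifs with h
  · rw [zero_add, norm_mul]
    norm_num
    nlinarith [norm_nonneg x]
  · refine (norm_add_le _ _).trans ?_
    rw [norm_mul, norm_mul]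
    norm_num
    linarith

/-- The whole round. -/
noncomputable def Btot (K : ℕ) : (Fin K → ℂ) →L[ℂ] (Fin K → ℂ) :=
  ((List.finRange K).map Bstep).prod

lemma Btot_apply (x : Fin K → ℂ) : Btot K x = (List.finRange K).foldr Bfun x := by
  unfold Btot
  induction List.finRange K with
  | nil => simp
  | cons a l ih => simp [ih, Bstep_apply]

lemma Btot_norm (K : ℕ) : ‖Btot K‖ ≤ (3/4) ^ K := by
  unfold Btot
  have : ∀ l : List (Fin K), ‖(l.map Bstep).prod‖ ≤ (3/4) ^ l.length := by
    intro l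
    induction l with
    | nil =>
      rw [List.map_nil, List.prod_nil, List.length_nil, pow_zero]
      exact ContinuousLinearMap.norm_id_le
    | cons a l ih =>
      rw [List.map_cons, List.prod_cons, List.length_cons, pow_succ']
      exact (norm_mul_le _ _).trans (mul_le_mul (Bstep_norm a) ih (norm_nonneg _) (by norm_num))
  simpa using this (List.finRange K)

lemma Btot_lower {t : ℝ} {x : Fin K → ℂ} (hx : ∀ c, t ≤ (x c).re) (ht : 0 ≤ t) (c : Fin K) :
    (1/3) * (3/4) ^ K * t ≤ (Btot K x c).re := by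
  have key := fold_down K (fun m (s : ℝ) (x : Fin K → ℂ) =>
    0 ≤ s ∧ (s = (3/4) ^ (K - m) * t) ∧ (∀ c : Fin K, (c : ℕ) < m → s ≤ (x c).re) ∧
      (∀ c, s / 3 ≤ (x c).re))
    (fun _ s => (3/4) * s) Bfun ?_ t x ?_
  · obtain ⟨-, h1, -, h2⟩ := key
    have := h2 c
    rw [h1] at this
    rw [Btot_apply]
    rw [Nat.sub_zero] at this
    linarith
  · rintro l s x ⟨h0, h1, h2, h3⟩
    refine ⟨by positivity, ?_, ?_, ?_⟩
    · rw [h1]
      have : K - (l : ℕ) = (K - (l + 1)) + 1 := by omega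
      rw [this, pow_succ]; ring
    · intro c hc
      have hcl : c ≠ l := by rintro rfl; exact lt_irrefl _ hc
      have e : (Bfun l x c).re = 1/2 * (x c).re + 1/4 * (x l).re := by
        simp only [Bfun, if_neg hcl]
        simp [Complex.add_re, Complex.mul_re]
      rw [e]
      have := h2 c (by omega)
      have := h2 l (by omega)
      linarith
    · intro c
      by_cases hcl : c = l
      · subst hcl
        have e : (Bfun c x c).re = 1/4 * (x c).re := by
          simp only [Bfun, if_true]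
          simp [Complex.add_re, Complex.mul_re]
        rw [e]
        have := h2 c (by omega)
        linarith
      · have e : (Bfun l x c).re = 1/2 * (x c).re + 1/4 * (x l).re := by
          simp only [Bfun, if_neg hcl]
          simp [Complex.add_re, Complex.mul_re]
        rw [e]
        have := h3 c
        have := h2 l (by omega)
        linarith
  · refine ⟨ht, by simp, fun c _ => hx c, fun c => ?_⟩
    have := hx c
    linarith

lemma Btot_pow_lower (k : ℕ) (c : Fin K) :
    ((1/3) * (3/4) ^ K) ^ k ≤ (((Btot K) ^ k) (fun _ => 1) c).re := by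
  induction k generalizing c with
  | zero => simp
  | succ k ih =>
    rw [pow_succ' (Btot K), ContinuousLinearMap.mul_apply, pow_succ']
    exact Btot_lower ih (by positivity) c

lemma exists_eig (hK : 0 < K) : ∃ (μ : ℂ) (x : Fin K → ℂ), (1/3) * (3/4) ^ K ≤ ‖μ‖ ∧
    ‖μ‖ ≤ (3/4) ^ K ∧ x ≠ 0 ∧ Btot K x = μ • x := by
  haveI : Nonempty (Fin K) := ⟨⟨0, hK⟩⟩
  haveI : Nontrivial (Fin K → ℂ) := inferInstance
  obtain ⟨μ, hμ, hr⟩ := spectrum.exists_nnnorm_eq_spectralRadius (Btot K)
  have hup : ‖μ‖ ≤ (3/4) ^ K := (spectrum.norm_le_norm_of_mem hμ).trans (Btot_norm K)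
  have hlow : (1/3 : ℝ) * (3/4) ^ K ≤ ‖μ‖ := by
    set δ : ℝ≥0 := ⟨(1/3) * (3/4) ^ K, by positivity⟩ with hδ
    have h1 : ∀ k : ℕ, δ ^ k ≤ ‖(Btot K) ^ k‖₊ := by
      intro k
      rw [← NNReal.coe_le_coe, NNReal.coe_pow, coe_nnnorm]
      calc ((δ : ℝ)) ^ k ≤ (((Btot K) ^ k) (fun _ => 1) ⟨0, hK⟩).re := Btot_pow_lower k _
        _ ≤ ‖((Btot K) ^ k) (fun _ => 1) ⟨0, hK⟩‖ := Complex.re_le_norm _
        _ ≤ ‖((Btot K) ^ k) (fun _ => 1)‖ := norm_le_pi_norm _ _
        _ ≤ ‖(Btot K) ^ k‖ * ‖(fun _ : Fin K => (1:ℂ))‖ := ContinuousLinearMap.le_opNorm _ _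
        _ ≤ ‖(Btot K) ^ k‖ * 1 := by
            gcongr
            exact (pi_norm_le_iff_of_nonneg zero_le_one).2 (fun c => by simp)
        _ = ‖(Btot K) ^ k‖ := mul_one _
    have h2 := spectrum.pow_nnnorm_pow_one_div_tendsto_nhds_spectralRadius (Btot K)
    have h3 : (δ : ℝ≥0∞) ≤ spectralRadius ℂ (Btot K) := by
      refine ge_of_tendsto h2 ?_
      filter_upwards [Filter.eventually_gt_atTop 0] with k hk
      have h4 : ((δ ^ k : ℝ≥0) : ℝ≥0∞) ≤ (‖(Btot K) ^ k‖₊ : ℝ≥0∞) := by exact_mod_cast h1 k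
      calc (δ : ℝ≥0∞) = (((δ ^ k : ℝ≥0) : ℝ≥0∞)) ^ (1 / k : ℝ) := by
            rw [ENNReal.coe_pow, ← ENNReal.rpow_natCast, ← ENNReal.rpow_mul]
            rw [mul_one_div_cancel (by positivity), ENNReal.rpow_one]
        _ ≤ _ := ENNReal.rpow_le_rpow h4 (by positivity)
    rw [← hr] at h3
    have h5 : δ ≤ ‖μ‖₊ := by exact_mod_cast h3
    exact_mod_cast h5
  have hev : Module.End.HasEigenvalue (Btot K : (Fin K → ℂ) →ₗ[ℂ] (Fin K → ℂ)) μ := by
    rw [Module.End.hasEigenvalue_iff_mem_spectrum]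
    rw [spectrum.mem_iff] at hμ ⊢
    intro hu
    apply hμ
    have hbij : Function.Bijective
        (algebraMap ℂ (Module.End ℂ (Fin K → ℂ)) μ - (Btot K : (Fin K → ℂ) →ₗ[ℂ] (Fin K → ℂ))) := by
      exact (Module.End.isUnit_iff _).1 hu
    rw [ContinuousLinearMap.isUnit_iff_bijective]
    exact hbij
  obtain ⟨x, hx⟩ := hev.exists_hasEigenvector
  exact ⟨μ, x, hlow, hup, hx.2, hx.apply_eq_smul⟩

end Pool.Agent.Q234.BF
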